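import Pool.Agent.Lib.MP_7bc51d_an_marg.Frac

set_option autoImplicit false

namespace Pool.Agent.Lib.BilM

open Complex MeasureTheory Set Filter
open scoped ComplexConjugate Topology ENNReal
open Pool.Agent.Lib.Bil

variable {n : ℕ} {v : Fin n → ℂ}

theorem cr_neg_rl {e : ℂ} (he : e ≠ 0) {F : ℂ → ℝ → ℝ} {a : ℂ} (hs : SymAt F a e) :
    ∀ᵐ w : ℂ, Mf F a e (rl e w) = - Mf F a e w := by
  filter_upwards [Sm_symm hs] with w hw
  unfold Mf
  rw [hw 1 ⟨zero_le_one, le_rfl⟩, cr_rl_left he]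
  ring

theorem Mf_hom {F : ℂ → ℝ → ℝ} (hhom : HomF F) (a e : ℂ) {r : ℝ} (hr : 0 < r) (w : ℂ) :
    Mf F a e ((r : ℂ) * w) = r * Mf F a e w := by
  have h1 : Sm F a e 1 ((r : ℂ) * w) = Sm F a e 1 w := by
    unfold Sm
    apply intervalIntegral.integral_congr
    intro τ _
    simp only
    rw [cr_smul_left, hhom r hr]
  unfold Mf
  rw [h1, cr_smul_left]
  ring

theorem flux_sum (hn : 3 ≤ n) (hv : ConvexIndependent ℝ v) {F : ℂ → ℝ → ℝ} (hF : LF F) (w : ℂ) :
    ∑ i, Mf F (v i) (v (nxt hn hv i) - v i) w = 0 := by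
  have h1 : ∀ i, Mf F (v i) (v (nxt hn hv i) - v i) w =
      Gp F w (cr w (v (nxt hn hv i))) - Gp F w (cr w (v i)) := by
    intro i
    have := Gp_side hF (v i) (v (nxt hn hv i) - v i) w 1
    rw [ofReal_one, one_mul, add_sub_cancel] at this
    rw [this, Mf]
  simp_rw [h1]
  rw [Finset.sum_sub_distrib, sum_nxt hn hv (fun i => Gp F w (cr w (v i))), sub_self]

theorem cramer {a b : ℂ} (h : cr a b ≠ 0) (z : ℂ) :
    ((cr z b / cr a b : ℝ) : ℂ) * a + ((cr a z / cr a b : ℝ) : ℂ) * b = z := by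
  apply Complex.ext
  · simp only [add_re, mul_re, ofReal_re, ofReal_im]
    have h1 : cr z b * a.re + cr a z * b.re = z.re * cr a b := by
      unfold cr; ring
    field_simp
    linarith
  · simp only [add_im, mul_im, ofReal_re, ofReal_im]
    have h1 : cr z b * a.im + cr a z * b.im = z.im * cr a b := by
      unfold cr; ring
    field_simp
    linarith

/-- A function antisymmetric under two reflections at an irrational angle vanishes. -/
theorem antisym_zero {a b : ℂ} (ha : a ≠ 0) (hb : b ≠ 0)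
    (hirr : ∀ m : ℕ, 0 < m → ((a / b) ^ m).im ≠ 0) {G : ℂ → ℝ} (hG : Measurable G)
    (hhom : ∀ r : ℝ, 0 < r → ∀ w, G ((r : ℂ) * w) = r * G w)
    (h1 : ∀ᵐ w, G (rl a w) = - G w) (h2 : ∀ᵐ w, G (rl b w) = - G w) :
    ∀ᵐ w, G w = 0 := by
  have hab : a / b ≠ 0 := div_ne_zero ha hb
  have hca : conj a ≠ 0 := by simpa using ha
  have hcb : conj b ≠ 0 := by simpa using hb
  set c : ℂ := (a / b) / conj (a / b) with hc
  have hc1 : ‖c‖ = 1 := by
    rw [hc, norm_div, RCLike.norm_conj, div_self (norm_ne_zero_iff.2 hab)]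
  have hord : ∀ m : ℕ, 0 < m → c ^ m ≠ 1 := by
    intro m hm h
    apply hirr m hm
    have h3 : (a / b) ^ m = conj ((a / b) ^ m) := by
      rw [hc, div_pow, ← map_pow] at h
      have h4 : conj ((a / b) ^ m) ≠ 0 := by
        rw [map_ne_zero]
        exact pow_ne_zero _ hab
      rw [div_eq_one_iff_eq h4] at h
      exact h
    have h5 := congrArg Complex.im h3
    rw [conj_im] at h5
    linarith
  have hrr : ∀ w, rl a (rl b w) = c * w := by
    intro w
    rw [hc]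
    simp only [rl, map_mul, map_div₀, conj_conj]
    field_simp
  have hinv : ∀ᵐ w, G (c * w) = G w := by
    have h3 := (mp_rl hb).quasiMeasurePreserving.ae h1
    filter_upwards [h2, h3] with w k1 k2
    rw [← hrr, k2, k1, neg_neg]
  have key := rot_ergodic (Φ := {w | 0 < G w}) (measurableSet_lt measurable_const hG)
    (fun z r hr => by
      simp only [mem_ofPred_eq]
      rw [hhom r hr]
      exact ⟨fun h => mul_pos hr h, fun h => by
        by_contra hcon
        push Not at hcon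
        nlinarith⟩) hc1 hord (by
      filter_upwards [hinv] with w hw
      simp only [mem_ofPred_eq, hw])
  have hle : ∀ᵐ w, G w ≤ 0 := by
    rcases key with h | h
    · have : ∀ᵐ w, w ∉ {w | 0 < G w} := measure_eq_zero_iff_ae_notMem.1 h
      filter_upwards [this] with w hw
      exact not_lt.1 hw
    · have h3 : ∀ᵐ w, 0 < G w := by
        have : ∀ᵐ w, w ∉ {w | 0 < G w}ᶜ := measure_eq_zero_iff_ae_notMem.1 h
        filter_upwards [this] with w hw
        simpa using hw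
      have h4 := (mp_rl ha).quasiMeasurePreserving.ae h3
      filter_upwards [h3, h4, h1] with w k1 k2 k3
      rw [k3] at k2
      linarith
  have h4 := (mp_rl ha).quasiMeasurePreserving.ae hle
  filter_upwards [hle, h4, h1] with w k1 k2 k3
  rw [k3] at k2
  linarith

/-- If the side averages do not depend on the direction on all sides but two, and the angle of
these two sides is irrational, then they do not depend on the direction on any side. -/
theorem sides_const (hn : 3 ≤ n) (hv : ConvexIndependent ℝ v) {F : ℂ → ℝ → ℝ} (hF : LF F)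
    (hhom : HomF F) (hs : ∀ i, SymAt F (v i) (v (nxt hn hv i) - v i)) {a b : Fin n}
    (hab : a ≠ b)
    (hirr : ∀ m : ℕ, 0 < m →
      (((v (nxt hn hv a) - v a) / (v (nxt hn hv b) - v b)) ^ m).im ≠ 0)
    (hc : ∀ i, i ≠ a → i ≠ b → ∃ c : ℝ, ∀ᵐ w : ℂ, Sm F (v i) (v (nxt hn hv i) - v i) 1 w = c) :
    ∀ i, ∃ c : ℝ, ∀ᵐ w : ℂ, Sm F (v i) (v (nxt hn hv i) - v i) 1 w = c := by
  have hne : ∀ i, v (nxt hn hv i) - v i ≠ 0 := fun i => v_sub_ne hv (nxt_side hn hv i).ne
  set e : Fin n → ℂ := fun i => v (nxt hn hv i) - v i with he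
  have hc' : ∀ i, ∃ c : ℝ, i ≠ a → i ≠ b → ∀ᵐ w : ℂ, Sm F (v i) (e i) 1 w = c := by
    intro i
    by_cases h1 : i ≠ a
    · by_cases h2 : i ≠ b
      · obtain ⟨c, hc⟩ := hc i h1 h2
        exact ⟨c, fun _ _ => hc⟩
      · exact ⟨0, fun _ h => absurd h h2⟩
    · exact ⟨0, fun h => absurd h h1⟩
  choose c hcc using hc'
  have hcrab : cr (e a) (e b) ≠ 0 := by
    intro h
    have h1 := hirr 1 one_pos
    rw [pow_one] at h1
    apply h1
    obtain ⟨t, ht⟩ := (cr_eq_zero_iff (hne a)).1 h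
    have ht0 : t ≠ 0 := by
      rintro rfl
      have : e b = 0 := by rw [ht]; simp
      exact hne b this
    have h2 : (v (nxt hn hv a) - v a) / (v (nxt hn hv b) - v b) = ((t⁻¹ : ℝ) : ℂ) := by
      have h3 : v (nxt hn hv b) - v b = (t : ℂ) * (v (nxt hn hv a) - v a) := ht
      have h4 := hne a
      have h5 : (t : ℂ) ≠ 0 := by exact_mod_cast ht0
      rw [h3]
      push_cast
      field_simp
    rw [h2, ofReal_im]
  -- the balance
  set u : ℂ := ∑ i ∈ (Finset.univ.erase a).erase b, (c i : ℂ) * e i with hu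
  set ca : ℝ := cr (-u) (e b) / cr (e a) (e b) with hca
  set cb : ℝ := cr (e a) (-u) / cr (e a) (e b) with hcb
  have hcr : (ca : ℂ) * e a + (cb : ℂ) * e b = -u := cramer hcrab (-u)
  have hoth : ∀ᵐ w : ℂ, ∀ i, i ≠ a → i ≠ b → Sm F (v i) (e i) 1 w = c i := by
    rw [ae_all_iff]
    intro i
    by_cases h1 : i ≠ a
    · by_cases h2 : i ≠ b
      · filter_upwards [hcc i h1 h2] with w hw _ _
        exact hw
      · exact Eventually.of_forall (fun w _ h => absurd h h2)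
    · exact Eventually.of_forall (fun w h => absurd h h1)
  have hbal : ∀ᵐ w : ℂ, Mf F (v a) (e a) w + Mf F (v b) (e b) w = - cr w u := by
    filter_upwards [hoth] with w hw
    have h1 := flux_sum hn hv hF w
    have h2 : ∑ i, Mf F (v i) (e i) w = Mf F (v a) (e a) w + (Mf F (v b) (e b) w +
        ∑ i ∈ (Finset.univ.erase a).erase b, Mf F (v i) (e i) w) := by
      rw [← Finset.add_sum_erase Finset.univ _ (Finset.mem_univ a),
        ← Finset.add_sum_erase (Finset.univ.erase a) _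
          (Finset.mem_erase.2 ⟨hab.symm, Finset.mem_univ b⟩)]
    have h3 : ∑ i ∈ (Finset.univ.erase a).erase b, Mf F (v i) (e i) w = cr w u := by
      have h4 : ∀ (s : Finset (Fin n)), cr w (∑ i ∈ s, (c i : ℂ) * e i) =
          ∑ i ∈ s, c i * cr w (e i) := by
        intro s
        induction s using Finset.induction_on with
        | empty => simp [cr_zero_right]
        | insert x s hx ih => rw [Finset.sum_insert hx, Finset.sum_insert hx, cr_add_right,
            cr_smul_right, ih]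
      rw [hu, h4]
      apply Finset.sum_congr rfl
      intro i hi
      rw [Finset.mem_erase, Finset.mem_erase] at hi
      rw [Mf, hw i hi.2.1 hi.1]
    have h5 : ∑ i, Mf F (v i) (e i) w = 0 := h1
    rw [h2, h3] at h5
    linarith
  set G : ℂ → ℝ := fun w => Mf F (v a) (e a) w - ca * cr w (e a) with hG
  have hGb : ∀ᵐ w, G w = -(Mf F (v b) (e b) w - cb * cr w (e b)) := by
    filter_upwards [hbal] with w hw
    have h1 : cr w (-u) = ca * cr w (e a) + cb * cr w (e b) := by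
      rw [← hcr, cr_add_right, cr_smul_right, cr_smul_right]
    rw [cr_neg_right] at h1
    rw [hG]
    simp only
    linarith
  have hG0 : ∀ᵐ w, G w = 0 := by
    refine antisym_zero (hne a) (hne b) hirr ?_ ?_ ?_ ?_
    · exact (Mf_meas hF _ _).sub ((meas_crl _).const_mul _)
    · intro r hr w
      rw [hG]
      simp only
      rw [Mf_hom hhom _ _ hr, cr_smul_left]
      ring
    · filter_upwards [cr_neg_rl (hne a) (hs a)] with w hw
      rw [hG]
      simp only
      have h1 : cr (rl (e a) w) (e a) = - cr w (e a) := cr_rl_left (hne a) w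
      have h2 : Mf F (v a) (e a) (rl (e a) w) = - Mf F (v a) (e a) w := hw
      change Mf F (v a) (e a) (rl (e a) w) - ca * cr (rl (e a) w) (e a) = _
      rw [h1, h2]
      ring
    · have h3 := (mp_rl (hne b)).quasiMeasurePreserving.ae hGb
      filter_upwards [cr_neg_rl (hne b) (hs b), hGb, h3] with w hw k1 k2
      have h1 : cr (rl (e b) w) (e b) = - cr w (e b) := cr_rl_left (hne b) w
      have h2 : Mf F (v b) (e b) (rl (e b) w) = - Mf F (v b) (e b) w := hw
      change G (rl (e b) w) = - G w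
      have k2' : G (rl (e b) w) = -(Mf F (v b) (e b) (rl (e b) w) - cb * cr (rl (e b) w) (e b)) :=
        k2
      rw [k2', h1, h2, k1]
      ring
  have hnz : ∀ i, ∀ᵐ w : ℂ, cr w (e i) ≠ 0 := by
    intro i
    filter_upwards [ae_not_mem_line (e i)] with w hw h
    apply hw
    rw [cr_swap, neg_eq_zero] at h
    obtain ⟨t, ht⟩ := (cr_eq_zero_iff (hne i)).1 h
    rw [Submodule.mem_span_singleton]
    exact ⟨t, by rw [real_smul, ht]⟩
  intro i
  by_cases h1 : i = a
  · subst h1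
    refine ⟨ca, ?_⟩
    filter_upwards [hG0, hnz i] with w k1 k2
    have h3 : Sm F (v i) (e i) 1 w * cr w (e i) - ca * cr w (e i) = 0 := k1
    have h4 : (Sm F (v i) (e i) 1 w - ca) * cr w (e i) = 0 := by linarith
    have h5 := (mul_eq_zero.1 h4).resolve_right k2
    change Sm F (v i) (e i) 1 w = ca
    linarith
  · by_cases h2 : i = b
    · subst h2
      refine ⟨cb, ?_⟩
      filter_upwards [hG0, hGb, hnz i] with w k1 k0 k2
      rw [k1] at k0
      have h3 : Sm F (v i) (e i) 1 w * cr w (e i) - cb * cr w (e i) = 0 := by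
        have : Mf F (v i) (e i) w - cb * cr w (e i) = 0 := by linarith
        exact this
      have h4 : (Sm F (v i) (e i) 1 w - cb) * cr w (e i) = 0 := by linarith
      have h5 := (mul_eq_zero.1 h4).resolve_right k2
      change Sm F (v i) (e i) 1 w = cb
      linarith
    · exact ⟨c i, hcc i h1 h2⟩

/-- Constant side averages on all sides but two force the line function to be constant. -/
theorem F_const (hn : 3 ≤ n) (hv : ConvexIndependent ℝ v) {F : ℂ → ℝ → ℝ} (hF : LF F)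
    (hhom : HomF F) (hs : ∀ i, SymAt F (v i) (v (nxt hn hv i) - v i)) {a b : Fin n}
    (hab : a ≠ b)
    (hirr : ∀ m : ℕ, 0 < m →
      (((v (nxt hn hv a) - v a) / (v (nxt hn hv b) - v b)) ^ m).im ≠ 0)
    (hc : ∀ i, i ≠ a → i ≠ b → ∃ c : ℝ, ∀ᵐ w : ℂ, Sm F (v i) (v (nxt hn hv i) - v i) 1 w = c) :
    ∃ c : ℝ, ∀ᵐ x : ℂ, x ∈ PP v → ∀ᵐ w : ℂ, F w (cr w x) = c := by
  have h1 := sides_const hn hv hF hhom hs hab hirr hc
  obtain ⟨b', hb'⟩ := corr_const hn hv hF hs h1
  exact const_of_rot hn hv hF hhom (l2_rot (Gw_memLp hF) hb')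

theorem ind_diff_cases {A B : Set (ℂ × ℂ)} {c : ℝ} {P : Set ℂ}
    (h : ∀ᵐ p : ℂ × ℂ, p.1 ∈ P → A.indicator (1 : ℂ × ℂ → ℝ) p - B.indicator 1 p = c) (X : Set ℂ) :
    volume ({p : ℂ × ℂ | ¬ (p ∈ A ↔ p ∈ B)} ∩ (P ×ˢ X)) = 0 ∨
    (volume (A ∩ (P ×ˢ X)) = 0 ∧ volume ((P ×ˢ X) \ B) = 0) ∨
    (volume ((P ×ˢ X) \ A) = 0 ∧ volume (B ∩ (P ×ˢ X)) = 0) := by
  have e : ∀ (D : Set (ℂ × ℂ)) (p : ℂ × ℂ), D.indicator (1 : ℂ × ℂ → ℝ) p = 1 ∧ p ∈ D ∨
      D.indicator (1 : ℂ × ℂ → ℝ) p = 0 ∧ p ∉ D := by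
    intro D p
    by_cases hp : p ∈ D
    · left; exact ⟨by rw [indicator_of_mem hp]; rfl, hp⟩
    · right; exact ⟨indicator_of_notMem hp _, hp⟩
  by_cases h1 : c = 1
  · right; right
    constructor
    · rw [measure_eq_zero_iff_ae_notMem]
      filter_upwards [h] with p hp hpm
      have h2 := hp hpm.1.1
      rcases e A p with ⟨k1, k2⟩ | ⟨k1, k2⟩
      · exact hpm.2 k2
      · rcases e B p with ⟨k3, k4⟩ | ⟨k3, k4⟩ <;> rw [k1, k3, h1] at h2 <;> norm_num at h2
    · rw [measure_eq_zero_iff_ae_notMem]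
      filter_upwards [h] with p hp hpm
      have h2 := hp hpm.2.1
      rcases e A p with ⟨k1, k2⟩ | ⟨k1, k2⟩ <;> rcases e B p with ⟨k3, k4⟩ | ⟨k3, k4⟩
      · rw [k1, k3, h1] at h2; norm_num at h2
      · exact k4 hpm.1
      · rw [k1, k3, h1] at h2; norm_num at h2
      · rw [k1, k3, h1] at h2; norm_num at h2
  · by_cases h2 : c = -1
    · right; left
      constructor
      · rw [measure_eq_zero_iff_ae_notMem]
        filter_upwards [h] with p hp hpm
        have h3 := hp hpm.2.1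
        rcases e A p with ⟨k1, k2⟩ | ⟨k1, k2⟩ <;> rcases e B p with ⟨k3, k4⟩ | ⟨k3, k4⟩
        · rw [k1, k3, h2] at h3; norm_num at h3
        · rw [k1, k3, h2] at h3; norm_num at h3
        · exact k2 hpm.1
        · exact k2 hpm.1
      · rw [measure_eq_zero_iff_ae_notMem]
        filter_upwards [h] with p hp hpm
        have h3 := hp hpm.1.1
        rcases e A p with ⟨k1, k2⟩ | ⟨k1, k2⟩ <;> rcases e B p with ⟨k3, k4⟩ | ⟨k3, k4⟩
        · exact hpm.2 k4
        · rw [k1, k3, h2] at h3; norm_num at h3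
        · exact hpm.2 k4
        · rw [k1, k3, h2] at h3; norm_num at h3
    · left
      rw [measure_eq_zero_iff_ae_notMem]
      filter_upwards [h] with p hp hpm
      have h3 := hp hpm.2.1
      rcases e A p with ⟨k1, k2⟩ | ⟨k1, k2⟩ <;> rcases e B p with ⟨k3, k4⟩ | ⟨k3, k4⟩
      · exact hpm.1 ⟨fun _ => k4, fun _ => k2⟩
      · rw [k1, k3] at h3; exact h1 (by linarith)
      · rw [k1, k3] at h3; exact h2 (by linarith)
      · exact hpm.1 ⟨fun h => absurd h k2, fun h => absurd h k4⟩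

theorem meas_F_swap {F : ℂ → ℝ → ℝ} (hF : LF F) :
    Measurable (fun p : ℂ × ℂ => F p.2 (cr p.2 p.1)) :=
  (meas_F_comp1 hF).comp measurable_swap

theorem ae_prod_FA {D : Set (ℂ × ℂ)} (hD : MeasurableSet D) (hch : ∀ᵐ w, ChordAt v D w) :
    ∀ᵐ p ∂((volume : Measure ℂ).prod (volume : Measure ℂ)),
      p.1 ∈ PP v → FA v D p.2 (cr p.2 p.1) = D.indicator (1 : ℂ × ℂ → ℝ) p := by
  have g1 := FA_ae hch
  have hPm2 : MeasurableSet {p : ℂ × ℂ | p.2 ∈ PP v} :=
    isOpen_PP.measurableSet.preimage measurable_snd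
  have m1 := meas_F_comp1 (LF_FA (v := v) hD)
  have m2 : Measurable (fun p : ℂ × ℂ => D.indicator (1 : ℂ × ℂ → ℝ) (p.2, p.1)) :=
    (measurable_one.indicator hD).comp (measurable_snd.prodMk measurable_fst)
  have hm : MeasurableSet {p : ℂ × ℂ | p.2 ∈ PP v →
      FA v D p.1 (cr p.1 p.2) = D.indicator (1 : ℂ × ℂ → ℝ) (p.2, p.1)} :=
    hPm2.imp (measurableSet_eq_fun m1 m2)
  have g2 : ∀ᵐ p ∂((volume : Measure ℂ).prod (volume : Measure ℂ)), p.2 ∈ PP v →
      FA v D p.1 (cr p.1 p.2) = D.indicator (1 : ℂ × ℂ → ℝ) (p.2, p.1) := by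
    rw [Measure.ae_prod_iff_ae_ae hm]
    exact g1
  have h0 : MeasurePreserving (Prod.swap : ℂ × ℂ → ℂ × ℂ)
    ((volume : Measure ℂ).prod volume) ((volume : Measure ℂ).prod volume) :=
    Measure.measurePreserving_swap
  exact h0.quasiMeasurePreserving.ae g2

theorem ae_prod_of_F {F : ℂ → ℝ → ℝ} (hF : LF F) {c : ℝ}
    (h : ∀ᵐ x : ℂ, x ∈ PP v → ∀ᵐ w : ℂ, F w (cr w x) = c) :
    ∀ᵐ p ∂((volume : Measure ℂ).prod (volume : Measure ℂ)),
      p.1 ∈ PP v → F p.2 (cr p.2 p.1) = c := by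
  have hPm : MeasurableSet {p : ℂ × ℂ | p.1 ∈ PP v} :=
    isOpen_PP.measurableSet.preimage measurable_fst
  have hm : MeasurableSet {p : ℂ × ℂ | p.1 ∈ PP v → F p.2 (cr p.2 p.1) = c} :=
    hPm.imp (measurableSet_eq_fun (meas_F_swap hF) measurable_const)
  rw [Measure.ae_prod_iff_ae_ae hm]
  filter_upwards [h] with x hx
  by_cases hxP : x ∈ PP v
  · filter_upwards [hx hxP] with w hw _
    exact hw
  · exact Eventually.of_forall (fun w h => absurd h hxP)

/-- Passing from line functions to indicators. -/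
theorem ind_of_F {A B : Set (ℂ × ℂ)} (hA : MeasurableSet A) (hB : MeasurableSet B)
    (hchA : ∀ᵐ w, ChordAt v A w) (hchB : ∀ᵐ w, ChordAt v B w) {c : ℝ}
    {F : ℂ → ℝ → ℝ} (hF : LF F) (hFd : ∀ w Q, F w Q = FA v A w Q - FA v B w Q)
    (h : ∀ᵐ x : ℂ, x ∈ PP v → ∀ᵐ w : ℂ, F w (cr w x) = c) :
    ∀ᵐ p : ℂ × ℂ, p.1 ∈ PP v → A.indicator (1 : ℂ × ℂ → ℝ) p - B.indicator 1 p = c := by
  have s1 := ae_prod_of_F hF h
  have s2 := ae_prod_FA hA hchA
  have s3 := ae_prod_FA hB hchB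
  change ∀ᵐ p ∂((volume : Measure ℂ).prod (volume : Measure ℂ)), _
  filter_upwards [s1, s2, s3] with p k1 k2 k3 hp
  rw [← k2 hp, ← k3 hp, ← hFd]
  exact k1 hp

theorem marg (hn : 3 ≤ n) (hv : ConvexIndependent ℝ v) {A B : Set (ℂ × ℂ)}
    (hA : MeasurableSet A) (hB : MeasurableSet B)
    (hconeA : ∀ x w : ℂ, ∀ c : ℝ, 0 < c → ((x, w) ∈ A ↔ (x, (c : ℂ) * w) ∈ A))
    (hconeB : ∀ x w : ℂ, ∀ c : ℝ, 0 < c → ((x, w) ∈ B ↔ (x, (c : ℂ) * w) ∈ B))
    (HA : ∀ᵐ p ∂(volume : Measure (ℂ × ℂ)), HypAt v A p)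
    (HB : ∀ᵐ p ∂(volume : Measure (ℂ × ℂ)), HypAt v B p)
    {i₁ j₁ i₂ j₂ : Fin n} (h₁ : IsSide v i₁ j₁) (h₂ : IsSide v i₂ j₂)
    (hirr : ∀ m : ℕ, 0 < m → (((v j₁ - v i₁) / (v j₂ - v i₂)) ^ m).im ≠ 0)
    (hc : ∀ i j, IsSide v i j → i ≠ i₁ → i ≠ i₂ → ∃ c : ℝ, ∀ᵐ w : ℂ, 0 < cr (v j - v i) w →
      (volume (lit v A i j w)).toReal - (volume (lit v B i j w)).toReal = c) (X : Set ℂ) :
    volume ({p : ℂ × ℂ | ¬ (p ∈ A ↔ p ∈ B)} ∩ (PP v ×ˢ X)) = 0 ∨
    (volume (A ∩ (PP v ×ˢ X)) = 0 ∧ volume ((PP v ×ˢ X) \ B) = 0) ∨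
    (volume ((PP v ×ˢ X) \ A) = 0 ∧ volume (B ∩ (PP v ×ˢ X)) = 0) := by
  have hIA : Inv v A := inv_of_hyp hv HA
  have hIB : Inv v B := inv_of_hyp hv HB
  have hchA := chord_of_hyp (v := v) HA
  have hchB := chord_of_hyp (v := v) HB
  have hFA := LF_FA (v := v) hA
  have hFB := LF_FA (v := v) hB
  have hne : ∀ i, v (nxt hn hv i) - v i ≠ 0 := fun i => v_sub_ne hv (nxt_side hn hv i).ne
  have hsA : ∀ i, SymAt (FA v A) (v i) (v (nxt hn hv i) - v i) := fun i =>
    symAt_FA hn hv hIA hchA (nxt_side hn hv i)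
  have hsB : ∀ i, SymAt (FA v B) (v i) (v (nxt hn hv i) - v i) := fun i =>
    symAt_FA hn hv hIB hchB (nxt_side hn hv i)
  set F : ℂ → ℝ → ℝ := fun w Q => FA v A w Q - FA v B w Q with hFdef
  have hF01 : ∀ (D : Set (ℂ × ℂ)) w Q, FA v D w Q = 0 ∨ FA v D w Q = 1 := by
    intro D w Q
    unfold FA
    by_cases h : (w, Q) ∈ Lset v D
    · rw [indicator_of_mem h]; right; rfl
    · rw [indicator_of_notMem h]; left; rfl
  have hF : LF F := by
    constructor
    · exact hFA.meas.sub hFB.meas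
    · intro w Q
      rw [hFdef]
      simp only
      rcases hF01 A w Q with h | h <;> rcases hF01 B w Q with h' | h' <;> rw [h, h'] <;> norm_num
  have hhom : HomF F := by
    intro r hr w Q
    rw [hFdef]
    simp only
    rw [FA_hom hconeA r hr, FA_hom hconeB r hr]
  have hs : ∀ i, SymAt F (v i) (v (nxt hn hv i) - v i) := by
    intro i
    filter_upwards [hsA i, hsB i] with w k1 k2
    filter_upwards [k1, k2] with τ k3 k4 hτ
    rw [hFdef]
    simp only
    rw [k3 hτ, k4 hτ]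
  have hn1 : nxt hn hv i₁ = j₁ := next_unique (nxt_side hn hv i₁) h₁
  have hn2 : nxt hn hv i₂ = j₂ := next_unique (nxt_side hn hv i₂) h₂
  have hab : i₁ ≠ i₂ := by
    rintro rfl
    have h3 := hirr 1 one_pos
    rw [← hn1, ← hn2, pow_one, div_self (hne i₁)] at h3
    exact h3 one_im
  have hSm : ∀ i w, Sm F (v i) (v (nxt hn hv i) - v i) 1 w =
      Sm (FA v A) (v i) (v (nxt hn hv i) - v i) 1 w -
        Sm (FA v B) (v i) (v (nxt hn hv i) - v i) 1 w := by
    intro i w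
    unfold Sm
    have hii : ∀ {D : Set (ℂ × ℂ)}, LF (FA v D) → IntervalIntegrable
        (fun τ : ℝ => FA v D w (cr w (v i + (τ : ℂ) * (v (nxt hn hv i) - v i)))) volume 0 1 := by
      intro D hD
      have := ii_mul hD (v i) (v (nxt hn hv i) - v i) w (d := fun _ => 1) continuous_const
      simpa using this
    rw [← intervalIntegral.integral_sub (hii hFA) (hii hFB)]
  have hcF : ∀ i, i ≠ i₁ → i ≠ i₂ →
      ∃ c : ℝ, ∀ᵐ w : ℂ, Sm F (v i) (v (nxt hn hv i) - v i) 1 w = c := by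
    intro i hi1 hi2
    obtain ⟨c, hc1⟩ := hc i (nxt hn hv i) (nxt_side hn hv i) hi1 hi2
    refine ⟨c, ?_⟩
    have g0 : ∀ᵐ w : ℂ, 0 < cr (v (nxt hn hv i) - v i) w →
        Sm F (v i) (v (nxt hn hv i) - v i) 1 w = c := by
      filter_upwards [hc1, frac_eq hn hv hA hchA (nxt_side hn hv i),
        frac_eq hn hv hB hchB (nxt_side hn hv i)] with w k1 k2 k3 hw
      rw [hSm, k2 hw, k3 hw]
      exact k1 hw
    have g1 := (mp_rl (hne i)).quasiMeasurePreserving.ae g0
    filter_upwards [g0, g1, Sm_symm (hs i), ae_not_mem_line (v (nxt hn hv i) - v i)] with w k1 k2 k3 k4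
    rcases lt_trichotomy (cr (v (nxt hn hv i) - v i) w) 0 with h | h | h
    · have h5 := cr_rl (hne i) (v (nxt hn hv i) - v i) w
      rw [rl_self (hne i)] at h5
      have h6 := k2 (by rw [h5]; linarith)
      rw [k3 1 ⟨zero_le_one, le_rfl⟩] at h6
      exact h6
    · exfalso
      apply k4
      obtain ⟨t, ht⟩ := (cr_eq_zero_iff (hne i)).1 h
      rw [Submodule.mem_span_singleton]
      exact ⟨t, by rw [real_smul]; exact ht.symm⟩
    · exact k1 h
  have hirr' : ∀ m : ℕ, 0 < m →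
      (((v (nxt hn hv i₁) - v i₁) / (v (nxt hn hv i₂) - v i₂)) ^ m).im ≠ 0 := by
    rw [hn1, hn2]; exact hirr
  obtain ⟨c, hcc⟩ := F_const hn hv hF hhom hs hab hirr' hcF
  exact ind_diff_cases (ind_of_F hA hB hchA hchB hF (fun _ _ => rfl) hcc) X

end Pool.Agent.Lib.BilM
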