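import Pool.Agent.Lib.MP_7bc51d_an.Uniform

set_option autoImplicit false

namespace Pool.Agent.Lib.BilM

open Complex MeasureTheory Set Filter
open scoped ComplexConjugate Topology ENNReal
open Pool.Agent.Lib.Bil

variable {n : ℕ} {v : Fin n → ℂ}

theorem ii_of_bdd {f : ℝ → ℝ} (hf : Measurable f) (hb : ∀ t, |f t| ≤ 1) (a b : ℝ) :
    IntervalIntegrable f volume a b := by
  have h1 : IntervalIntegrable (fun _ : ℝ => (1 : ℝ)) volume a b := intervalIntegrable_const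
  refine h1.mono_fun hf.aestronglyMeasurable ?_
  refine Eventually.of_forall (fun Q => ?_)
  simp only [Real.norm_eq_abs, abs_one]
  exact hb Q

theorem prod_int {f g : ℝ → ℝ} (hf : Measurable f) (hfb : ∀ t, |f t| ≤ 1) (hg : Measurable g)
    (hgb : ∀ t, |g t| ≤ 1) :
    ∫ t in (0 : ℝ)..1, (f t * (∫ s in (0 : ℝ)..t, g s) + (∫ s in (0 : ℝ)..t, f s) * g t) =
      (∫ t in (0 : ℝ)..1, f t) * ∫ t in (0 : ℝ)..1, g t := by
  have hfi := ii_of_bdd hf hfb 0 1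
  have hgi := ii_of_bdd hg hgb 0 1
  have af := hfi.absolutelyContinuousOnInterval_intervalIntegral (c := 0) (by simp)
  have ag := hgi.absolutelyContinuousOnInterval_intervalIntegral (c := 0) (by simp)
  have h := af.integral_deriv_mul_eq_sub ag
  simp only [intervalIntegral.integral_same, mul_zero, sub_zero] at h
  rw [← h]
  apply intervalIntegral.integral_congr_ae
  filter_upwards [hfi.ae_hasDerivAt_integral, hgi.ae_hasDerivAt_integral] with t h1 h2 ht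
  have ht' : t ∈ uIcc (0 : ℝ) 1 := uIoc_subset_uIcc ht
  rw [(h1 ht' 0 (by simp)).deriv, (h2 ht' 0 (by simp)).deriv]

theorem meas_ii {h : ℂ → ℝ → ℝ} (hm : Measurable (fun z : ℂ × ℝ => h z.1 z.2)) (t : ℝ)
    (ht : 0 ≤ t) : Measurable (fun w => ∫ τ in (0 : ℝ)..t, h w τ) := by
  have h0 : (fun w => ∫ τ in (0 : ℝ)..t, h w τ) = fun w => ∫ τ in Ioc (0 : ℝ) t, h w τ := by
    funext w; rw [intervalIntegral.integral_of_le ht]
  rw [h0]
  have h2 : StronglyMeasurable (Function.uncurry h) := hm.stronglyMeasurable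
  exact h2.integral_prod_right.measurable

theorem bdd_ii {h : ℝ → ℝ} {C : ℝ} (hb : ∀ τ ∈ Ioc (0 : ℝ) 1, |h τ| ≤ C) :
    |∫ τ in (0 : ℝ)..1, h τ| ≤ C := by
  have := intervalIntegral.norm_integral_le_of_norm_le_const (a := 0) (b := 1) (f := h) (C := C)
    (fun q hq => by rw [uIoc_of_le zero_le_one] at hq; rw [Real.norm_eq_abs]; exact hb q hq)
  simpa using this

theorem rot_preimage_BV {ρ : ℂ} (hρ : ‖ρ‖ = 1) : (fun w : ℂ => ρ * w) ⁻¹' BV = BV := by
  ext w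
  simp only [mem_preimage, mem_ball_zero_iff, norm_mul, hρ, one_mul]

theorem rot_integral {ρ : ℂ} (hρ : ‖ρ‖ = 1) (g : ℂ → ℝ) :
    ∫ w in BV, g (ρ * w) = ∫ w in BV, g w := by
  have h := (mp_mul hρ).restrict_preimage (s := BV) measurableSet_ball
  rw [rot_preimage_BV hρ] at h
  have hemb : MeasurableEmbedding (fun z : ℂ => ρ * z) :=
    (mulEquiv ρ hρ).toHomeomorph.measurableEmbedding
  exact h.integral_comp hemb g

theorem Gp_cont {F : ℂ → ℝ → ℝ} (hF : LF F) (w : ℂ) : Continuous (Gp F w) := by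
  have h : LipschitzWith 1 (Gp F w) := by
    apply LipschitzWith.of_dist_le_mul
    intro x y
    rw [Real.dist_eq, Real.dist_eq, NNReal.coe_one, one_mul]
    exact Gp_lip hF w y x
  exact h.continuous

theorem continuous_cr_right (w : ℂ) : Continuous (fun x : ℂ => cr w x) := by
  unfold cr; fun_prop

theorem norm_conj' {ρ : ℂ} (hρ : ‖ρ‖ = 1) : ‖conj ρ‖ = 1 := by
  rw [RCLike.norm_conj, hρ]

theorem conj_mul_self' {ρ : ℂ} (hρ : ‖ρ‖ = 1) : conj ρ * ρ = 1 := by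
  rw [← Complex.normSq_eq_conj_mul_self, Complex.normSq_eq_norm_sq, hρ]; simp

theorem abs_cr_BV {w : ℂ} (hw : w ∈ BV) (e : ℂ) : |cr w e| ≤ ‖e‖ := by
  have hw1 := (norm_lt_of_BV hw).le
  refine (abs_cr_le w e).trans ?_
  calc ‖w‖ * ‖e‖ ≤ 1 * ‖e‖ := by gcongr
    _ = ‖e‖ := one_mul _

theorem mem_BV_rot {ρ w : ℂ} (hρ : ‖ρ‖ = 1) (hw : w ∈ BV) : ρ * w ∈ BV := by
  rw [mem_ball_zero_iff, norm_mul, hρ, one_mul]
  exact norm_lt_of_BV hw

theorem meas_pt (a e ρ : ℂ) :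
    Measurable (fun z : ℂ × ℝ => cr (ρ * z.1) (a + (z.2 : ℂ) * e)) := by
  apply Continuous.measurable; unfold cr; fun_prop

theorem meas_F_pt {F : ℂ → ℝ → ℝ} (hF : LF F) (a e ρ : ℂ) :
    Measurable (fun z : ℂ × ℝ => F (ρ * z.1) (cr (ρ * z.1) (a + (z.2 : ℂ) * e))) :=
  hF.meas.comp ((measurable_fst.const_mul ρ).prodMk (meas_pt a e ρ))

theorem meas_F_pt1 {F : ℂ → ℝ → ℝ} (hF : LF F) (a e : ℂ) :
    Measurable (fun z : ℂ × ℝ => F z.1 (cr z.1 (a + (z.2 : ℂ) * e))) := by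
  have := meas_F_pt hF a e 1
  simpa using this

theorem meas_G_pt {F : ℂ → ℝ → ℝ} (hF : LF F) (a e ρ : ℂ) :
    Measurable (fun z : ℂ × ℝ => Gp F (ρ * z.1) (cr (ρ * z.1) (a + (z.2 : ℂ) * e))) :=
  (Gp_meas hF).comp ((measurable_fst.const_mul ρ).prodMk (meas_pt a e ρ))

theorem meas_crl (e : ℂ) : Measurable (fun w : ℂ => cr w e) := meas_cr_left e

/-- The Green identity for the correlation of `F` with its rotation. -/
theorem corr_green (hn : 3 ≤ n) (hv : ConvexIndependent ℝ v) {F : ℂ → ℝ → ℝ} (hF : LF F)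
    {ρ : ℂ} (hρ : ‖ρ‖ = 1) :
    ∫ w in BV, ∫ x in PP v, F w (cr w x) * (F (ρ * w) (cr (ρ * w) x) * cr (ρ * w) w) =
      ∑ i, ∫ w in BV, ∫ τ in (0 : ℝ)..1,
        F w (cr w (v i + (τ : ℂ) * (v (nxt hn hv i) - v i))) *
        Gp F (ρ * w) (cr (ρ * w) (v i + (τ : ℂ) * (v (nxt hn hv i) - v i))) *
          cr w (v (nxt hn hv i) - v i) := by
  have hgen : ∀ᵐ w : ℂ, ∀ i, w ∉ (Submodule.span ℝ {v (nxt hn hv i) - v i} : Submodule ℝ ℂ) := by
    rw [ae_all_iff]; intro i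
    exact ae_not_mem_line _
  have hne : ∀ i, v (nxt hn hv i) - v i ≠ 0 := fun i => v_sub_ne hv (nxt_side hn hv i).ne
  have h1 : ∀ᵐ w : ℂ, ∫ x in PP v, F w (cr w x) * (F (ρ * w) (cr (ρ * w) x) * cr (ρ * w) w) =
      ∑ i, ∫ τ in (0 : ℝ)..1, F w (cr w (v i + (τ : ℂ) * (v (nxt hn hv i) - v i))) *
        Gp F (ρ * w) (cr (ρ * w) (v i + (τ : ℂ) * (v (nxt hn hv i) - v i))) *
          cr w (v (nxt hn hv i) - v i) := by
    filter_upwards [hgen] with w hw
    have hw0 : w ≠ 0 := by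
      rintro rfl
      have i0 : Fin n := ⟨0, by omega⟩
      exact hw i0 (Submodule.zero_mem _)
    refine green hn hv hw0 ?_ (hF.meas2 w) (hF.bd w)
      (K := fun y => Gp F (ρ * w) (cr (ρ * w) y))
      (k := fun y => F (ρ * w) (cr (ρ * w) y) * cr (ρ * w) w) ?_ ?_ (C := |cr (ρ * w) w|) ?_ ?_
    · intro i hcon
      have h2 : cr w (v (nxt hn hv i) - v i) = 0 := by rw [cr_sub_right, hcon, sub_self]
      rw [cr_swap, neg_eq_zero] at h2
      obtain ⟨t, ht⟩ := (cr_eq_zero_iff (hne i)).1 h2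
      apply hw i
      rw [Submodule.mem_span_singleton]
      exact ⟨t, by rw [real_smul, ht]⟩
    · exact (Gp_cont hF _).comp (continuous_cr_right _)
    · exact ((hF.meas2 (ρ * w)).comp (meas_cr_right _)).mul_const _
    · intro y _
      rw [abs_mul]
      calc _ ≤ 1 * |cr (ρ * w) w| := by gcongr; exact hF.bd _ _
        _ = _ := one_mul _
    · intro y s
      rw [cr_add_right, cr_smul_right, Gp_add hF]
      apply intervalIntegral.integral_congr
      intro s' _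
      simp only
      rw [cr_add_right, cr_smul_right]
  rw [integral_congr_ae (ae_restrict_of_ae h1), integral_finsetSum]
  intro i _
  set e := v (nxt hn hv i) - v i with he
  have hm : Measurable (fun z : ℂ × ℝ => F z.1 (cr z.1 (v i + (z.2 : ℂ) * e)) *
      Gp F (ρ * z.1) (cr (ρ * z.1) (v i + (z.2 : ℂ) * e)) * cr z.1 e) :=
    ((meas_F_pt1 hF _ _).mul (meas_G_pt hF _ _ _)).mul ((meas_crl e).comp measurable_fst)
  refine intOn_ball (C := (‖v i‖ + ‖e‖) * ‖e‖)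
    (meas_ii (h := fun w τ => F w (cr w (v i + (τ : ℂ) * e)) *
      Gp F (ρ * w) (cr (ρ * w) (v i + (τ : ℂ) * e)) * cr w e) hm 1 zero_le_one) ?_
  intro w hw
  apply bdd_ii
  intro τ hτ
  rw [abs_mul, abs_mul]
  have g1 := hF.bd w (cr w (v i + (τ : ℂ) * e))
  have g2 : |Gp F (ρ * w) (cr (ρ * w) (v i + (τ : ℂ) * e))| ≤ ‖v i‖ + ‖e‖ := by
    refine (Gp_abs hF _ _).trans ((abs_cr_BV (mem_BV_rot hρ hw) _).trans ((norm_add_le _ _).trans ?_))
    have : ‖(τ : ℂ) * e‖ ≤ ‖e‖ := by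
      rw [norm_mul, norm_real, Real.norm_eq_abs, abs_of_pos hτ.1]
      calc τ * ‖e‖ ≤ 1 * ‖e‖ := by gcongr; exact hτ.2
        _ = ‖e‖ := one_mul _
    linarith
  have g3 := abs_cr_BV hw e
  calc |F w (cr w (v i + (τ : ℂ) * e))| * |Gp F (ρ * w) (cr (ρ * w) (v i + (τ : ℂ) * e))| *
        |cr w e| ≤ 1 * (‖v i‖ + ‖e‖) * ‖e‖ := by gcongr
    _ = _ := by ring

/-- Flux of a line function through a side. -/
noncomputable def Mf (F : ℂ → ℝ → ℝ) (a e w : ℂ) : ℝ := Sm F a e 1 w * cr w e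

theorem Mf_meas {F : ℂ → ℝ → ℝ} (hF : LF F) (a e : ℂ) : Measurable (Mf F a e) :=
  (Sm_meas hF a e).mul (meas_crl e)

theorem Mf_abs {F : ℂ → ℝ → ℝ} (hF : LF F) (a e : ℂ) {w : ℂ} (hw : w ∈ BV) :
    |Mf F a e w| ≤ ‖e‖ := by
  unfold Mf
  rw [abs_mul]
  have h1 := Sm_abs hF a e w (t := 1) ⟨zero_le_one, le_rfl⟩
  have h2 := abs_cr_BV hw e
  calc _ ≤ 1 * ‖e‖ := by gcongr
    _ = _ := one_mul _

theorem Sm_meas2 {F : ℂ → ℝ → ℝ} (hF : LF F) (a e : ℂ) :
    Measurable (fun z : ℂ × ℝ => Sm F a e z.2 z.1) := by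
  -- the mass is a difference of primitives divided by the cross product, or an explicit integral
  have h0 : (fun z : ℂ × ℝ => Sm F a e z.2 z.1) =
      fun z => z.2 * ∫ t in Ioc (0 : ℝ) 1, F z.1 (cr z.1 (a + ((z.2 * t : ℝ) : ℂ) * e)) := by
    funext z
    unfold Sm
    have h := intervalIntegral.mul_integral_comp_mul_left (a := 0) (b := 1)
      (f := fun τ : ℝ => F z.1 (cr z.1 (a + (τ : ℂ) * e))) z.2
    rw [mul_zero, mul_one] at h
    rw [← h, intervalIntegral.integral_of_le zero_le_one]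
  rw [h0]
  refine measurable_snd.mul ?_
  have h1 : Measurable (fun z : (ℂ × ℝ) × ℝ =>
      F z.1.1 (cr z.1.1 (a + ((z.1.2 * z.2 : ℝ) : ℂ) * e))) := by
    have hc1 : Measurable (fun z : (ℂ × ℝ) × ℝ => cr z.1.1 (a + ((z.1.2 * z.2 : ℝ) : ℂ) * e)) := by
      apply Continuous.measurable; unfold cr; fun_prop
    exact hF.meas.comp (measurable_fst.fst.prodMk hc1)
  have h2 : StronglyMeasurable (Function.uncurry
      (fun (p : ℂ × ℝ) (t : ℝ) => F p.1 (cr p.1 (a + ((p.2 * t : ℝ) : ℂ) * e)))) :=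
    h1.stronglyMeasurable
  exact h2.integral_prod_right.measurable

/-- The symmetric part of the side correlation. -/
noncomputable def Jc (F : ℂ → ℝ → ℝ) (a e ρ w : ℂ) : ℝ :=
  (∫ τ in (0 : ℝ)..1, F w (cr w (a + (τ : ℂ) * e)) * Sm F a e τ (ρ * w)) *
    (cr (ρ * w) e * cr w e)

theorem Jc_int_meas {F : ℂ → ℝ → ℝ} (hF : LF F) (a e ρ : ℂ) :
    Measurable (fun w => ∫ τ in (0 : ℝ)..1, F w (cr w (a + (τ : ℂ) * e)) *
      Sm F a e τ (ρ * w)) := by
  refine meas_ii (h := fun w τ => F w (cr w (a + (τ : ℂ) * e)) * Sm F a e τ (ρ * w)) ?_ 1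
    zero_le_one
  exact (meas_F_pt1 hF a e).mul
    ((Sm_meas2 hF a e).comp ((measurable_fst.const_mul ρ).prodMk measurable_snd))

theorem Jc_int_abs {F : ℂ → ℝ → ℝ} (hF : LF F) (a e ρ w : ℂ) :
    |∫ τ in (0 : ℝ)..1, F w (cr w (a + (τ : ℂ) * e)) * Sm F a e τ (ρ * w)| ≤ 1 := by
  apply bdd_ii
  intro τ hτ
  rw [abs_mul]
  have h1 := hF.bd w (cr w (a + (τ : ℂ) * e))
  have h2 := Sm_abs hF a e (ρ * w) (t := τ) ⟨hτ.1.le, hτ.2⟩
  calc _ ≤ (1 : ℝ) * 1 := by gcongr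
    _ = 1 := one_mul _

theorem Jc_intOn {F : ℂ → ℝ → ℝ} (hF : LF F) (a e : ℂ) {ρ : ℂ} (hρ : ‖ρ‖ = 1) :
    IntegrableOn (Jc F a e ρ) BV := by
  unfold Jc
  have hm2 : Measurable (fun w : ℂ => cr (ρ * w) e) :=
    (meas_crl e).comp (measurable_id.const_mul ρ)
  refine intOn_ball ((Jc_int_meas hF a e ρ).mul (hm2.mul (meas_crl e))) (C := ‖e‖ * ‖e‖) ?_
  intro w hw
  rw [abs_mul, abs_mul]
  have h1 := Jc_int_abs hF a e ρ w
  have h2 := abs_cr_BV hw e
  have h3 := abs_cr_BV (mem_BV_rot hρ hw) e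
  calc _ ≤ 1 * (‖e‖ * ‖e‖) := by gcongr
    _ = _ := one_mul _

theorem Jc_conj {F : ℂ → ℝ → ℝ} {a e : ℂ} (he : e ≠ 0) (hs : SymAt F a e)
    {ρ : ℂ} (hρ : ‖ρ‖ = 1) : ∫ w in BV, Jc F a e ρ w = ∫ w in BV, Jc F a e (conj ρ) w := by
  rw [← rl_integral he (Jc F a e ρ)]
  apply integral_congr_ae
  apply ae_restrict_of_ae
  have h1 := Sm_symm hs
  have h2 := (mp_mul (norm_conj' hρ)).quasiMeasurePreserving.ae h1
  filter_upwards [hs, h2] with w g1 g2
  have e1 : ρ * rl e w = rl e (conj ρ * w) := by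
    rw [rl_mul, conj_conj]
  unfold Jc
  rw [e1, cr_rl_left he, cr_rl_left he]
  have e2 : ∫ τ in (0 : ℝ)..1, F (rl e w) (cr (rl e w) (a + (τ : ℂ) * e)) *
      Sm F a e τ (rl e (conj ρ * w)) =
      ∫ τ in (0 : ℝ)..1, F w (cr w (a + (τ : ℂ) * e)) * Sm F a e τ (conj ρ * w) := by
    apply intervalIntegral.integral_congr_ae
    have h3 : ∀ᵐ τ : ℝ, τ ≠ 1 := by simp [ae_iff, measure_singleton]
    filter_upwards [g1, h3] with τ k1 k2 hτ
    rw [uIoc_of_le zero_le_one] at hτ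
    rw [k1 ⟨hτ.1, lt_of_le_of_ne hτ.2 k2⟩, g2 τ ⟨hτ.1.le, hτ.2⟩]
  rw [e2]
  ring

theorem Jc_rot {F : ℂ → ℝ → ℝ} (a e : ℂ) {ρ : ℂ} (hρ : ‖ρ‖ = 1) :
    ∫ w in BV, Jc F a e (conj ρ) w =
      ∫ w in BV, (∫ τ in (0 : ℝ)..1, F (ρ * w) (cr (ρ * w) (a + (τ : ℂ) * e)) *
        Sm F a e τ w) * (cr w e * cr (ρ * w) e) := by
  rw [← rot_integral hρ (Jc F a e (conj ρ))]
  apply integral_congr_ae
  refine Eventually.of_forall (fun w => ?_)
  simp only [Jc]
  have e1 : conj ρ * (ρ * w) = w := by rw [← mul_assoc, conj_mul_self' hρ, one_mul]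
  rw [e1]

/-- The symmetric part of the side correlation depends only on the flux. -/
theorem Jc_eq {F : ℂ → ℝ → ℝ} (hF : LF F) {a e : ℂ} (he : e ≠ 0) (hs : SymAt F a e)
    {ρ : ℂ} (hρ : ‖ρ‖ = 1) :
    ∫ w in BV, Jc F a e ρ w = (1 / 2) * ∫ w in BV, Mf F a e w * Mf F a e (ρ * w) := by
  have h1 := Jc_conj he hs hρ
  have h2 := Jc_rot (F := F) a e hρ
  have hi2 : IntegrableOn (fun w => (∫ τ in (0 : ℝ)..1,
      F (ρ * w) (cr (ρ * w) (a + (τ : ℂ) * e)) * Sm F a e τ w) * (cr w e * cr (ρ * w) e)) BV := by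
    have hm2 : Measurable (fun w : ℂ => cr (ρ * w) e) :=
      (meas_crl e).comp (measurable_id.const_mul ρ)
    have hm3 : Measurable (fun w => ∫ τ in (0 : ℝ)..1,
        F (ρ * w) (cr (ρ * w) (a + (τ : ℂ) * e)) * Sm F a e τ w) := by
      refine meas_ii (h := fun w τ => F (ρ * w) (cr (ρ * w) (a + (τ : ℂ) * e)) *
        Sm F a e τ w) ?_ 1 zero_le_one
      exact (meas_F_pt hF a e ρ).mul (Sm_meas2 hF a e)
    refine intOn_ball (hm3.mul ((meas_crl e).mul hm2)) (C := ‖e‖ * ‖e‖) ?_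
    intro w hw
    rw [abs_mul, abs_mul]
    have h1 : |∫ τ in (0 : ℝ)..1, F (ρ * w) (cr (ρ * w) (a + (τ : ℂ) * e)) *
        Sm F a e τ w| ≤ 1 := by
      apply bdd_ii
      intro τ hτ
      rw [abs_mul]
      have h1 := hF.bd (ρ * w) (cr (ρ * w) (a + (τ : ℂ) * e))
      have h2 := Sm_abs hF a e w (t := τ) ⟨hτ.1.le, hτ.2⟩
      calc _ ≤ (1 : ℝ) * 1 := by gcongr
        _ = 1 := one_mul _
    have h2 := abs_cr_BV hw e
    have h3 := abs_cr_BV (mem_BV_rot hρ hw) e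
    calc _ ≤ 1 * (‖e‖ * ‖e‖) := by gcongr
      _ = _ := one_mul _
  have h3 : (∫ w in BV, Jc F a e ρ w) + ∫ w in BV, (∫ τ in (0 : ℝ)..1,
      F (ρ * w) (cr (ρ * w) (a + (τ : ℂ) * e)) * Sm F a e τ w) * (cr w e * cr (ρ * w) e) =
      ∫ w in BV, Mf F a e w * Mf F a e (ρ * w) := by
    rw [← integral_add (Jc_intOn hF a e hρ) hi2]
    apply integral_congr_ae
    refine Eventually.of_forall (fun w => ?_)
    simp only [Jc, Mf]
    have hf : ∀ u : ℂ, Measurable (fun τ : ℝ => F u (cr u (a + (τ : ℂ) * e))) := by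
      intro u
      have hc : Measurable (fun τ : ℝ => cr u (a + (τ : ℂ) * e)) := by
        apply Continuous.measurable; unfold cr; fun_prop
      exact (hF.meas2 u).comp hc
    have h4 := prod_int (hf w) (fun t => hF.bd w _) (hf (ρ * w)) (fun t => hF.bd (ρ * w) _)
    have hSc : ∀ u : ℂ, Continuous (fun τ : ℝ => Sm F a e τ u) := by
      intro u
      unfold Sm
      exact intervalIntegral.continuous_primitive
        (fun a' b' => ii_of_bdd (hf u) (fun t => hF.bd u _) a' b') 0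
    have hii : ∀ u u' : ℂ, IntervalIntegrable
        (fun τ : ℝ => F u (cr u (a + (τ : ℂ) * e)) * Sm F a e τ u') volume 0 1 := by
      intro u u'
      exact ii_mul hF a e u (hSc u')
    have h5 : ∫ τ in (0 : ℝ)..1, (F w (cr w (a + (τ : ℂ) * e)) * Sm F a e τ (ρ * w) +
        Sm F a e τ w * F (ρ * w) (cr (ρ * w) (a + (τ : ℂ) * e))) =
        Sm F a e 1 w * Sm F a e 1 (ρ * w) := h4
    rw [intervalIntegral.integral_add (hii w (ρ * w)) (by
      have h7 : (fun τ : ℝ => Sm F a e τ w * F (ρ * w) (cr (ρ * w) (a + (τ : ℂ) * e))) =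
          fun τ : ℝ => F (ρ * w) (cr (ρ * w) (a + (τ : ℂ) * e)) * Sm F a e τ w := by
        funext τ
        exact mul_comm _ _
      rw [h7]
      exact hii (ρ * w) w)] at h5
    have h6 : ∫ τ in (0 : ℝ)..1, Sm F a e τ w * F (ρ * w) (cr (ρ * w) (a + (τ : ℂ) * e)) =
        ∫ τ in (0 : ℝ)..1, F (ρ * w) (cr (ρ * w) (a + (τ : ℂ) * e)) * Sm F a e τ w := by
      apply intervalIntegral.integral_congr
      intro τ _
      exact mul_comm _ _
    rw [h6] at h5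
    linear_combination (cr (ρ * w) e * cr w e) * h5
  rw [← h2, ← h1] at h3
  linarith

/-- The side correlation in terms of the flux through the side. -/
theorem side_corr {F : ℂ → ℝ → ℝ} (hF : LF F) {a e : ℂ} (he : e ≠ 0) (hs : SymAt F a e)
    {ρ : ℂ} (hρ : ‖ρ‖ = 1) :
    ∫ w in BV, ∫ τ in (0 : ℝ)..1, F w (cr w (a + (τ : ℂ) * e)) *
        Gp F (ρ * w) (cr (ρ * w) (a + (τ : ℂ) * e)) * cr w e =
      (∫ w in BV, Mf F a e w * Gp F (ρ * w) (cr (ρ * w) a)) +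
        (1 / 2) * ∫ w in BV, Mf F a e w * Mf F a e (ρ * w) := by
  rw [← Jc_eq hF he hs hρ, ← integral_add]
  · apply integral_congr_ae
    refine Eventually.of_forall (fun w => ?_)
    simp only [Jc, Mf, Sm]
    have hf : ∀ u : ℂ, Measurable (fun τ : ℝ => F u (cr u (a + (τ : ℂ) * e))) := by
      intro u
      have hc : Measurable (fun τ : ℝ => cr u (a + (τ : ℂ) * e)) := by
        apply Continuous.measurable; unfold cr; fun_prop
      exact (hF.meas2 u).comp hc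
    have hSc : ∀ u : ℂ, Continuous (fun τ : ℝ => Sm F a e τ u) := by
      intro u
      unfold Sm
      exact intervalIntegral.continuous_primitive
        (fun a' b' => ii_of_bdd (hf u) (fun t => hF.bd u _) a' b') 0
    have h1 : ∀ τ : ℝ, F w (cr w (a + (τ : ℂ) * e)) *
        Gp F (ρ * w) (cr (ρ * w) (a + (τ : ℂ) * e)) * cr w e =
        F w (cr w (a + (τ : ℂ) * e)) * (cr w e * Gp F (ρ * w) (cr (ρ * w) a)) +
          F w (cr w (a + (τ : ℂ) * e)) * Sm F a e τ (ρ * w) * (cr (ρ * w) e * cr w e) := by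
      intro τ
      have := Gp_side hF a e (ρ * w) τ
      linear_combination (F w (cr w (a + (τ : ℂ) * e)) * cr w e) * this
    simp_rw [h1]
    rw [intervalIntegral.integral_add, intervalIntegral.integral_mul_const,
      intervalIntegral.integral_mul_const]
    · simp only [Sm]
      ring
    · exact ((ii_of_bdd (hf w) (fun t => hF.bd w _) 0 1).mul_const _)
    · exact (ii_mul hF a e w (hSc (ρ * w))).mul_const _
  · have hm1 : Measurable (fun w : ℂ => Gp F (ρ * w) (cr (ρ * w) a)) :=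
      (Gp_meas_x hF a).comp (measurable_id.const_mul ρ)
    refine intOn_ball ((Mf_meas hF a e).mul hm1) (C := ‖e‖ * ‖a‖) ?_
    intro w hw
    rw [abs_mul]
    have h1 := Mf_abs hF a e hw
    have h2 : |Gp F (ρ * w) (cr (ρ * w) a)| ≤ ‖a‖ :=
      (Gp_abs hF _ _).trans (abs_cr_BV (mem_BV_rot hρ hw) _)
    gcongr
  · exact Jc_intOn hF a e hρ

end Pool.Agent.Lib.BilM
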