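import Pool.Agent.Lib.MP_7bc51d_an_marg.Rigid
import Pool.Agent.Lib.MP_7bc51d_an.LineFn
import Pool.Agent.Lib.MP_7bc51d_an.Rot
import Pool.Agent.Lib.MP_7bc51d_an.Generic

set_option autoImplicit false

namespace Pool.Agent.Lib.BilM

open Complex MeasureTheory Set Filter
open scoped ComplexConjugate Topology ENNReal
open Pool.Agent.Lib.Bil

variable {n : ℕ} {v : Fin n → ℂ}

theorem bs_hom {r : ℝ} (hr : 0 < r) (w : ℂ) (Q : ℝ) : bs ((r : ℂ) * w) (r * Q) = bs w Q := by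
  by_cases hw : w = 0
  · simp [hw, bs]
  have h := (esq_pos hw).ne'
  have hr' := hr.ne'
  unfold bs
  have h1 : ((r : ℂ) * w).re ^ 2 + ((r : ℂ) * w).im ^ 2 = r ^ 2 * (w.re ^ 2 + w.im ^ 2) := by
    simp only [mul_re, mul_im, ofReal_re, ofReal_im]
    ring
  rw [h1]
  have h2 : r * Q / (r ^ 2 * (w.re ^ 2 + w.im ^ 2)) = (Q / (w.re ^ 2 + w.im ^ 2)) / r := by
    field_simp
  rw [h2]
  push_cast
  have hrc : (r : ℂ) ≠ 0 := by exact_mod_cast hr'
  field_simp

theorem FA_hom {A : Set (ℂ × ℂ)}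
    (hcone : ∀ x w : ℂ, ∀ c : ℝ, 0 < c → ((x, w) ∈ A ↔ (x, (c : ℂ) * w) ∈ A)) :
    HomF (FA v A) := by
  intro r hr w Q
  have h : ((r : ℂ) * w, r * Q) ∈ Lset v A ↔ (w, Q) ∈ Lset v A := by
    unfold Lset
    simp only [mem_ofPred_eq, bs_hom hr]
    have hS : {s : ℝ | bs w Q + (s : ℂ) * ((r : ℂ) * w) ∈ PP v ∧
        (bs w Q + (s : ℂ) * ((r : ℂ) * w), (r : ℂ) * w) ∉ A} = (fun s : ℝ => s * r) ⁻¹'
        {s : ℝ | bs w Q + (s : ℂ) * w ∈ PP v ∧ (bs w Q + (s : ℂ) * w, w) ∉ A} := by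
      ext s
      simp only [mem_ofPred_eq, mem_preimage]
      have e1 : (s : ℂ) * ((r : ℂ) * w) = ((s * r : ℝ) : ℂ) * w := by push_cast; ring
      rw [e1, hcone (bs w Q + ((s * r : ℝ) : ℂ) * w) w r hr]
    rw [hS, Real.volume_preimage_mul_right hr.ne']
    rw [mul_eq_zero]
    constructor
    · rintro (h | h)
      · rw [ENNReal.ofReal_eq_zero] at h
        exact absurd (abs_pos.2 (inv_ne_zero hr.ne')) (not_lt.2 h)
      · exact h
    · intro h
      exact Or.inr h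
  unfold FA
  by_cases h1 : (w, Q) ∈ Lset v A
  · rw [indicator_of_mem h1, indicator_of_mem (h.2 h1)]; rfl
  · rw [indicator_of_notMem h1, indicator_of_notMem (fun h2 => h1 (h.1 h2))]

/-- The parameters of the points of the side `(i, j)` from which the direction `w` enters `A`. -/
def lit (v : Fin n → ℂ) (A : Set (ℂ × ℂ)) (i j : Fin n) (w : ℂ) : Set ℝ :=
  {t | t ∈ Ioo (0 : ℝ) 1 ∧
    ∀ᶠ s : ℝ in 𝓝[>] 0, (v i + (t : ℂ) * (v j - v i) + (s : ℂ) * w, w) ∈ A}

theorem frac_eq (hn : 3 ≤ n) (hv : ConvexIndependent ℝ v) {A : Set (ℂ × ℂ)}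
    (hA : MeasurableSet A) (hch : ∀ᵐ w, ChordAt v A w) {i j : Fin n} (hij : IsSide v i j) :
    ∀ᵐ w : ℂ, 0 < cr (v j - v i) w →
      Sm (FA v A) (v i) (v j - v i) 1 w = (volume (lit v A i j w)).toReal := by
  filter_upwards [hch] with w hw hpos
  set e := v j - v i with he
  have hw0 : w ≠ 0 := by
    rintro rfl
    rw [cr_zero_right] at hpos
    exact lt_irrefl _ hpos
  have k2 := ae_obl (a := v i) (e := e) (w := w) hpos.ne' hw
  -- the measurable version of the lit set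
  set T : Set ℝ := Ioo (0 : ℝ) 1 ∩ {t : ℝ | (w, cr w (v i + (t : ℂ) * e)) ∈ Lset v A} with hT
  have hTm : MeasurableSet {t : ℝ | (w, cr w (v i + (t : ℂ) * e)) ∈ Lset v A} := by
    have hc1 : Measurable (fun t : ℝ => cr w (v i + (t : ℂ) * e)) := by
      apply Continuous.measurable; unfold cr; fun_prop
    exact (measurableSet_Lset hA).preimage (measurable_const.prodMk hc1)
  have h1 : Sm (FA v A) (v i) e 1 w = (volume T).toReal := by
    unfold Sm
    rw [intervalIntegral.integral_of_le zero_le_one, integral_Ioc_eq_integral_Ioo]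
    have h2 : ∀ t : ℝ, FA v A w (cr w (v i + (t : ℂ) * e)) =
        {t : ℝ | (w, cr w (v i + (t : ℂ) * e)) ∈ Lset v A}.indicator (fun _ => (1 : ℝ)) t := by
      intro t
      unfold FA
      by_cases h3 : (w, cr w (v i + (t : ℂ) * e)) ∈ Lset v A
      · rw [indicator_of_mem h3, indicator_of_mem (show t ∈ {t : ℝ |
          (w, cr w (v i + (t : ℂ) * e)) ∈ Lset v A} from h3)]; rfl
      · rw [indicator_of_notMem h3, indicator_of_notMem (show t ∉ {t : ℝ |
          (w, cr w (v i + (t : ℂ) * e)) ∈ Lset v A} from h3)]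
    simp_rw [h2]
    rw [setIntegral_indicator hTm, ← hT, setIntegral_const]
    simp [Measure.real]
  rw [h1]
  congr 1
  apply measure_congr
  rw [Filter.eventuallyEq_set]
  filter_upwards [k2] with τ hτ
  simp only [hT, lit, mem_inter_iff, mem_ofPred_eq]
  apply and_congr_right
  intro hτI
  obtain ⟨ε, hε, i1⟩ := inward hn hv hij hτI.1 hτI.2 hpos
  rw [← he] at i1
  set b := v i + (τ : ℂ) * e with hb
  obtain ⟨s, hs, hs1⟩ : ∃ s ∈ Ioo (-ε) 0, (b - (s : ℂ) * w ∈ PP v → ∀ s' : ℝ,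
      b - (s : ℂ) * w + (s' : ℂ) * w ∈ PP v →
      ((b - (s : ℂ) * w, w) ∈ A ↔ (b - (s : ℂ) * w + (s' : ℂ) * w, w) ∈ A)) := by
    by_contra hcon
    have hpos : volume (Ioo (-ε) 0) ≠ 0 := by
      rw [Real.volume_Ioo, ne_eq, ENNReal.ofReal_eq_zero, not_le]; linarith
    apply hpos
    apply measure_mono_null _ hτ
    intro s hs hcon2
    exact hcon ⟨s, hs, hcon2⟩
  have hxP : b - (s : ℂ) * w ∈ PP v := by
    have := i1 (-s) (by linarith [hs.2]) (by linarith [hs.1])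
    push_cast at this
    rwa [neg_mul, ← sub_eq_add_neg] at this
  have hcrb : cr w b = cr w (b - (s : ℂ) * w) := by
    rw [cr_sub_right, cr_smul_right, cr_self, mul_zero, sub_zero]
  rw [hcrb, Lset_iff hw0 hxP (hs1 hxP)]
  have hev : ∀ᶠ s' : ℝ in 𝓝[>] 0, ((b - (s : ℂ) * w, w) ∈ A ↔ (b + (s' : ℂ) * w, w) ∈ A) := by
    have h3 : Ioo (0 : ℝ) ε ∈ 𝓝[>] (0 : ℝ) := Ioo_mem_nhdsGT hε
    filter_upwards [h3] with s' hs'
    have h4 := i1 s' hs'.1 hs'.2.le
    have e1 : b - (s : ℂ) * w + ((s + s' : ℝ) : ℂ) * w = b + (s' : ℂ) * w := by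
      push_cast; ring
    have h5 := hs1 hxP (s + s') (by rw [e1]; exact h4)
    rw [e1] at h5
    exact h5
  constructor
  · intro h
    filter_upwards [hev] with s' hs'
    exact hs'.1 h
  · intro h
    obtain ⟨s', h6, h7⟩ := (hev.and h).exists
    exact h6.2 h7

end Pool.Agent.Lib.BilM
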