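import Pool.Agent.Lib.MP_7bc51d_an_marg.Corr

set_option autoImplicit false

namespace Pool.Agent.Lib.BilM

open Complex MeasureTheory Set Filter
open scoped ComplexConjugate Topology ENNReal
open Pool.Agent.Lib.Bil

variable {n : ℕ} {v : Fin n → ℂ}

/-- Rotation of the velocity as a continuous map. -/
noncomputable def rotC (ρ : Circle) : C(ℂ × ℂ, ℂ × ℂ) :=
  ⟨fun p => ((ρ : ℂ) * p.1, p.2), by fun_prop⟩

theorem rotC_cont : Continuous rotC := by
  have h : Continuous (Function.uncurry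
      (fun (ρ : Circle) (p : ℂ × ℂ) => ((((ρ : ℂ) * p.1), p.2) : ℂ × ℂ))) := by
    have h1 : Continuous (fun z : Circle × (ℂ × ℂ) => ((z.1 : ℂ) * z.2.1, z.2.2)) := by
      have : Continuous (fun z : Circle × (ℂ × ℂ) => (z.1 : ℂ)) :=
        continuous_subtype_val.comp continuous_fst
      fun_prop
    exact h1
  exact ContinuousMap.continuous_of_continuous_uncurry _ h

theorem rotC_mp (ρ : Circle) :
    MeasurePreserving (rotC ρ) (volume : Measure (ℂ × ℂ)) (volume : Measure (ℂ × ℂ)) := by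
  have h1 := (mp_mul (c := (ρ : ℂ)) (Circle.norm_coe ρ)).prod
    (MeasurePreserving.id (volume : Measure ℂ))
  exact h1

theorem l2_rot {G : ℂ × ℂ → ℝ} (hG : MemLp G 2 (volume : Measure (ℂ × ℂ))) {b : ℝ}
    (h : ∀ ρ : Circle, (ρ : ℂ).im ≠ 0 → ∫ p : ℂ × ℂ, G p * G ((ρ : ℂ) * p.1, p.2) = b) :
    ∀ ρ : Circle, (ρ : ℂ).im ≠ 0 → ∀ᵐ p : ℂ × ℂ, G ((ρ : ℂ) * p.1, p.2) = G p := by
  set f : Lp ℝ 2 (volume : Measure (ℂ × ℂ)) := hG.toLp with hf
  set T : Circle → Lp ℝ 2 (volume : Measure (ℂ × ℂ)) :=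
    fun ρ => Lp.compMeasurePreserving (rotC ρ) (rotC_mp ρ) f with hT
  have hTc : Continuous T :=
    (continuous_const (y := f)).compMeasurePreservingLp rotC_cont rotC_mp (by norm_num)
  have hfae : ⇑f =ᵐ[volume] G := hG.coeFn_toLp
  have hTae : ∀ ρ : Circle, ⇑(T ρ) =ᵐ[volume] fun p => G ((ρ : ℂ) * p.1, p.2) := by
    intro ρ
    have h1 := Lp.coeFn_compMeasurePreserving f (rotC_mp ρ)
    refine h1.trans ?_
    have h2 := (rotC_mp ρ).quasiMeasurePreserving.ae hfae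
    filter_upwards [h2] with p hp
    exact hp
  have hin : ∀ ρ : Circle, inner ℝ f (T ρ) = ∫ p : ℂ × ℂ, G p * G ((ρ : ℂ) * p.1, p.2) := by
    intro ρ
    rw [L2.inner_def]
    apply integral_congr_ae
    filter_upwards [hfae, hTae ρ] with p h1 h2
    rw [h1, h2]
    simp [mul_comm]
  have hff : inner ℝ f f = ∫ p : ℂ × ℂ, G p * G (((1 : Circle) : ℂ) * p.1, p.2) := by
    rw [L2.inner_def]
    apply integral_congr_ae
    filter_upwards [hfae] with p h1
    rw [h1]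
    simp [sq]
  have hc1 : inner ℝ f (T 1) = b := by
    have hcont : Continuous (fun ρ => (inner ℝ f (T ρ) : ℝ)) := continuous_const.inner hTc
    set u : ℕ → Circle := fun k => Circle.exp (1 / ((k : ℝ) + 1)) with hu
    have hulim : Tendsto u atTop (𝓝 1) := by
      have h1 : Tendsto (fun k : ℕ => 1 / ((k : ℝ) + 1)) atTop (𝓝 0) :=
        tendsto_one_div_add_atTop_nhds_zero_nat
      have h2 := (Circle.exp.continuous.tendsto 0).comp h1
      have h3 : Circle.exp (0 : ℝ) = 1 := Circle.exp_zero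
      rw [h3] at h2
      exact h2
    have hul : ∀ k, (inner ℝ f (T (u k)) : ℝ) = b := by
      intro k
      rw [hin, h]
      rw [hu]
      simp only [Circle.coe_exp]
      rw [Complex.exp_ofReal_mul_I_im]
      apply ne_of_gt
      apply Real.sin_pos_of_pos_of_lt_pi (by positivity)
      have : 1 / ((k : ℝ) + 1) ≤ 1 := by
        rw [div_le_one (by positivity)]
        have : (0 : ℝ) ≤ k := Nat.cast_nonneg k
        linarith
      linarith [Real.pi_gt_three]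
    have h4 := (hcont.tendsto 1).comp hulim
    have h5 : Tendsto ((fun ρ => (inner ℝ f (T ρ) : ℝ)) ∘ u) atTop (𝓝 b) := by
      refine tendsto_const_nhds.congr (fun k => ?_)
      exact (hul k).symm
    exact tendsto_nhds_unique h4 h5
  have hff2 : inner ℝ f f = b := by rw [hff, ← hin 1, hc1]
  intro ρ hρ
  have h6 : ‖f - T ρ‖ ^ 2 = 0 := by
    rw [norm_sub_sq_real, hin ρ, h ρ hρ]
    have h7 : ‖T ρ‖ = ‖f‖ := Lp.norm_compMeasurePreserving f (rotC_mp ρ)
    rw [h7, ← real_inner_self_eq_norm_sq, hff2]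
    ring
  have h8 : f = T ρ := by
    have := pow_eq_zero_iff (two_ne_zero) |>.1 h6
    exact sub_eq_zero.1 (norm_eq_zero.1 this)
  have h9 : ⇑f =ᵐ[volume] ⇑(T ρ) := by rw [← h8]
  filter_upwards [hfae, hTae ρ, h9] with p k1 k2 k3
  rw [← k2, ← k3, k1]

/-- The weighted indicator function used for the correlation. -/
noncomputable def Gw (v : Fin n → ℂ) (F : ℂ → ℝ → ℝ) (p : ℂ × ℂ) : ℝ :=
  (BV ×ˢ PP v).indicator (fun p => ‖p.1‖ * F p.1 (cr p.1 p.2)) p

theorem meas_F_comp {F : ℂ → ℝ → ℝ} (hF : LF F) (ρ : ℂ) :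
    Measurable (fun p : ℂ × ℂ => F (ρ * p.1) (cr (ρ * p.1) p.2)) := by
  have hc1 : Measurable (fun p : ℂ × ℂ => cr (ρ * p.1) p.2) := by
    apply Continuous.measurable; unfold cr; fun_prop
  exact hF.meas.comp ((measurable_fst.const_mul ρ).prodMk hc1)

theorem meas_F_comp1 {F : ℂ → ℝ → ℝ} (hF : LF F) :
    Measurable (fun p : ℂ × ℂ => F p.1 (cr p.1 p.2)) := by
  simpa using meas_F_comp hF 1

theorem Gw_meas {F : ℂ → ℝ → ℝ} (hF : LF F) : Measurable (Gw v F) := by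
  unfold Gw
  exact (measurable_fst.norm.mul (meas_F_comp1 hF)).indicator
    (measurableSet_ball.prod isOpen_PP.measurableSet)

theorem Gw_memLp {F : ℂ → ℝ → ℝ} (hF : LF F) : MemLp (Gw v F) 2 (volume : Measure (ℂ × ℂ)) := by
  have hfin : (volume : Measure (ℂ × ℂ)) (BV ×ˢ PP v) ≠ ⊤ := by
    rw [Measure.volume_eq_prod, Measure.prod_prod]
    exact ENNReal.mul_ne_top measure_ball_lt_top.ne isBounded_PP.measure_lt_top.ne
  have h1 : MemLp ((BV ×ˢ PP v).indicator (fun _ : ℂ × ℂ => (1 : ℝ))) 2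
      (volume : Measure (ℂ × ℂ)) :=
    memLp_indicator_const 2 (measurableSet_ball.prod isOpen_PP.measurableSet) 1 (Or.inr hfin)
  refine h1.mono (Gw_meas hF).aestronglyMeasurable (Eventually.of_forall (fun p => ?_))
  unfold Gw
  by_cases hp : p ∈ BV ×ˢ PP v
  · rw [indicator_of_mem hp, indicator_of_mem hp, norm_mul, norm_norm]
    have h2 := (norm_lt_of_BV hp.1).le
    have h3 := hF.bd p.1 (cr p.1 p.2)
    rw [← Real.norm_eq_abs] at h3
    calc ‖p.1‖ * ‖F p.1 (cr p.1 p.2)‖ ≤ 1 * 1 := by gcongr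
      _ = ‖(1 : ℝ)‖ := by simp
  · rw [indicator_of_notMem hp, indicator_of_notMem hp]

/-- The rotation correlation as an iterated integral. -/
theorem Gw_corr {F : ℂ → ℝ → ℝ} (hF : LF F) (ρ : Circle) :
    ∫ p : ℂ × ℂ, Gw v F p * Gw v F ((ρ : ℂ) * p.1, p.2) =
      ∫ w in BV, ∫ x in PP v, ‖w‖ ^ 2 * (F w (cr w x) * F ((ρ : ℂ) * w) (cr ((ρ : ℂ) * w) x)) := by
  have hρ : ‖(ρ : ℂ)‖ = 1 := Circle.norm_coe ρ
  have h1 : ∀ p : ℂ × ℂ, Gw v F p * Gw v F ((ρ : ℂ) * p.1, p.2) =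
      (BV ×ˢ PP v).indicator (fun p => ‖p.1‖ ^ 2 *
        (F p.1 (cr p.1 p.2) * F ((ρ : ℂ) * p.1) (cr ((ρ : ℂ) * p.1) p.2))) p := by
    intro p
    unfold Gw
    by_cases hp : p ∈ BV ×ˢ PP v
    · have hp2 : ((ρ : ℂ) * p.1, p.2) ∈ BV ×ˢ PP v := ⟨mem_BV_rot hρ hp.1, hp.2⟩
      rw [indicator_of_mem hp, indicator_of_mem hp2, indicator_of_mem hp]
      simp only [norm_mul, hρ, one_mul]
      ring
    · rw [indicator_of_notMem hp, indicator_of_notMem hp, zero_mul]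
  simp_rw [h1]
  have hms : MeasurableSet (BV ×ˢ PP v : Set (ℂ × ℂ)) :=
    measurableSet_ball.prod isOpen_PP.measurableSet
  rw [integral_indicator hms, Measure.volume_eq_prod, setIntegral_prod]
  have hm : Measurable (fun p : ℂ × ℂ => ‖p.1‖ ^ 2 *
        (F p.1 (cr p.1 p.2) * F ((ρ : ℂ) * p.1) (cr ((ρ : ℂ) * p.1) p.2))) :=
    (measurable_fst.norm.pow_const 2).mul ((meas_F_comp1 hF).mul (meas_F_comp hF _))
  have hfin : ((volume : Measure ℂ).prod (volume : Measure ℂ)) (BV ×ˢ PP v) ≠ ⊤ := by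
    rw [Measure.prod_prod]
    exact ENNReal.mul_ne_top measure_ball_lt_top.ne isBounded_PP.measure_lt_top.ne
  have hc : IntegrableOn (fun _ : ℂ × ℂ => (1 : ℝ)) (BV ×ˢ PP v)
      ((volume : Measure ℂ).prod (volume : Measure ℂ)) := integrableOn_const hfin
  refine Integrable.mono' hc hm.aestronglyMeasurable ?_
  rw [ae_restrict_iff' hms]
  refine Eventually.of_forall (fun p hp => ?_)
  rw [norm_mul, norm_mul, norm_pow, norm_norm, Real.norm_eq_abs, Real.norm_eq_abs]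
  have h2 := (norm_lt_of_BV hp.1).le
  have h3 := hF.bd p.1 (cr p.1 p.2)
  have h4 := hF.bd ((ρ : ℂ) * p.1) (cr ((ρ : ℂ) * p.1) p.2)
  calc _ ≤ (1 : ℝ) ^ 2 * (1 * 1) := by gcongr
    _ = 1 := by norm_num

end Pool.Agent.Lib.BilM
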