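import Pool.Agent.Lib.MP_7bc51d_an_marg.L2Rot

set_option autoImplicit false

namespace Pool.Agent.Lib.BilM

open Complex MeasureTheory Set Filter
open scoped ComplexConjugate Topology ENNReal
open Pool.Agent.Lib.Bil

variable {n : ℕ} {v : Fin n → ℂ}

theorem cr_rot (ρ w e : ℂ) : cr (ρ * w) e = ρ.re * cr w e - ρ.im * dt w e := by
  simp only [cr, dt, mul_re, mul_im]; ring

theorem cr_rot_conj (ρ w e : ℂ) : cr (conj ρ * w) e = ρ.re * cr w e + ρ.im * dt w e := by
  simp only [cr, dt, mul_re, mul_im, conj_re, conj_im]; ring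

theorem cr_rot_self (ρ w : ℂ) : cr (ρ * w) w = - ρ.im * ‖w‖ ^ 2 := by
  rw [← Complex.normSq_eq_norm_sq, Complex.normSq_apply]
  simp only [cr, mul_re, mul_im]; ring

theorem abs_dt_BV {w : ℂ} (hw : w ∈ BV) (e : ℂ) : |dt w e| ≤ ‖e‖ := by
  have hw1 := (norm_lt_of_BV hw).le
  refine (abs_dt_le w e).trans ?_
  calc ‖w‖ * ‖e‖ ≤ 1 * ‖e‖ := by gcongr
    _ = ‖e‖ := one_mul _

theorem meas_dtl (e : ℂ) : Measurable (fun w : ℂ => dt w e) := by
  apply Continuous.measurable; unfold dt; fun_prop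

/-- The side term when the side average does not depend on the direction. -/
theorem side_const {F : ℂ → ℝ → ℝ} (hF : LF F) {a e : ℂ} {c : ℝ}
    (hc : ∀ᵐ w : ℂ, Sm F a e 1 w = c) {ρ : ℂ} (hρ : ‖ρ‖ = 1) :
    (∫ w in BV, Mf F a e w * Gp F (ρ * w) (cr (ρ * w) a)) +
        (1 / 2) * ∫ w in BV, Mf F a e w * Mf F a e (ρ * w) =
      ρ.re * (c * (∫ w in BV, cr w e * Gp F w (cr w a)) +
        (1 / 2) * c ^ 2 * ∫ w in BV, cr w e * cr w e) +
      ρ.im * (c * (∫ w in BV, dt w e * Gp F w (cr w a)) -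
        (1 / 2) * c ^ 2 * ∫ w in BV, cr w e * dt w e) := by
  have hc2 := (mp_mul hρ).quasiMeasurePreserving.ae hc
  have hGi : ∀ φ : ℂ → ℝ, Measurable φ → (∀ w ∈ BV, |φ w| ≤ ‖e‖) →
      IntegrableOn (fun w => φ w * Gp F w (cr w a)) BV := by
    intro φ hφ hb
    refine intOn_ball (hφ.mul (Gp_meas_x hF a)) (C := ‖e‖ * ‖a‖) ?_
    intro w hw
    rw [abs_mul]
    have h1 := hb w hw
    have h2 : |Gp F w (cr w a)| ≤ ‖a‖ := (Gp_abs hF _ _).trans (abs_cr_BV hw _)
    gcongr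
  have hqi : ∀ φ ψ : ℂ → ℝ, Measurable φ → Measurable ψ → (∀ w ∈ BV, |φ w| ≤ ‖e‖) →
      (∀ w ∈ BV, |ψ w| ≤ ‖e‖) → IntegrableOn (fun w => φ w * ψ w) BV := by
    intro φ ψ hφ hψ hb hb'
    refine intOn_ball (hφ.mul hψ) (C := ‖e‖ * ‖e‖) ?_
    intro w hw
    rw [abs_mul]
    have h1 := hb w hw
    have h2 := hb' w hw
    gcongr
  have t1 : ∫ w in BV, Mf F a e w * Gp F (ρ * w) (cr (ρ * w) a) =
      ρ.re * (c * ∫ w in BV, cr w e * Gp F w (cr w a)) +
        ρ.im * (c * ∫ w in BV, dt w e * Gp F w (cr w a)) := by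
    have h1 : ∫ w in BV, Mf F a e w * Gp F (ρ * w) (cr (ρ * w) a) =
        ∫ w in BV, (fun w => c * (cr (conj ρ * w) e * Gp F w (cr w a))) (ρ * w) := by
      apply integral_congr_ae
      apply ae_restrict_of_ae
      filter_upwards [hc] with w hw
      have e1 : conj ρ * (ρ * w) = w := by rw [← mul_assoc, conj_mul_self' hρ, one_mul]
      simp only [Mf]
      rw [hw, e1]
      ring
    rw [h1, rot_integral hρ (fun w => c * (cr (conj ρ * w) e * Gp F w (cr w a)))]
    simp only [cr_rot_conj]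
    rw [← integral_const_mul, ← integral_const_mul, ← integral_const_mul, ← integral_const_mul,
      ← integral_add]
    · apply integral_congr_ae
      refine Eventually.of_forall (fun w => ?_)
      simp only
      ring
    · exact ((hGi _ (meas_crl e) (fun w hw => abs_cr_BV hw e)).const_mul _).const_mul _
    · exact ((hGi _ (meas_dtl e) (fun w hw => abs_dt_BV hw e)).const_mul _).const_mul _
  have t2 : ∫ w in BV, Mf F a e w * Mf F a e (ρ * w) =
      ρ.re * (c ^ 2 * ∫ w in BV, cr w e * cr w e) -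
        ρ.im * (c ^ 2 * ∫ w in BV, cr w e * dt w e) := by
    have h1 : ∫ w in BV, Mf F a e w * Mf F a e (ρ * w) =
        ∫ w in BV, (c * cr w e) * (c * cr (ρ * w) e) := by
      apply integral_congr_ae
      apply ae_restrict_of_ae
      filter_upwards [hc, hc2] with w hw hw2
      simp only [Mf]
      rw [hw, hw2]
    rw [h1]
    simp only [cr_rot]
    rw [← integral_const_mul, ← integral_const_mul, ← integral_const_mul, ← integral_const_mul,
      ← integral_sub]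
    · apply integral_congr_ae
      refine Eventually.of_forall (fun w => ?_)
      simp only
      ring
    · exact ((hqi _ _ (meas_crl e) (meas_crl e) (fun w hw => abs_cr_BV hw e)
        (fun w hw => abs_cr_BV hw e)).const_mul _).const_mul _
    · exact ((hqi _ _ (meas_crl e) (meas_dtl e) (fun w hw => abs_cr_BV hw e)
        (fun w hw => abs_dt_BV hw e)).const_mul _).const_mul _
  rw [t1, t2]
  ring

/-- If all side averages are independent of the direction, the rotation correlation is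
constant. -/
theorem corr_const (hn : 3 ≤ n) (hv : ConvexIndependent ℝ v) {F : ℂ → ℝ → ℝ} (hF : LF F)
    (hs : ∀ i, SymAt F (v i) (v (nxt hn hv i) - v i))
    (hc : ∀ i, ∃ c : ℝ, ∀ᵐ w : ℂ, Sm F (v i) (v (nxt hn hv i) - v i) 1 w = c) :
    ∃ b : ℝ, ∀ ρ : Circle, (ρ : ℂ).im ≠ 0 →
      ∫ p : ℂ × ℂ, Gw v F p * Gw v F ((ρ : ℂ) * p.1, p.2) = b := by
  choose c hc using hc
  have hne : ∀ i, v (nxt hn hv i) - v i ≠ 0 := fun i => v_sub_ne hv (nxt_side hn hv i).ne
  set α : ℝ := ∑ i, (c i * (∫ w in BV, cr w (v (nxt hn hv i) - v i) * Gp F w (cr w (v i))) +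
        (1 / 2) * c i ^ 2 * ∫ w in BV, cr w (v (nxt hn hv i) - v i) *
          cr w (v (nxt hn hv i) - v i)) with hα
  set β : ℝ := ∑ i, (c i * (∫ w in BV, dt w (v (nxt hn hv i) - v i) * Gp F w (cr w (v i))) -
        (1 / 2) * c i ^ 2 * ∫ w in BV, cr w (v (nxt hn hv i) - v i) *
          dt w (v (nxt hn hv i) - v i)) with hβ
  have key : ∀ ρ : Circle, - (ρ : ℂ).im * (∫ p : ℂ × ℂ, Gw v F p * Gw v F ((ρ : ℂ) * p.1, p.2)) =
      (ρ : ℂ).re * α + (ρ : ℂ).im * β := by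
    intro ρ
    have hρ : ‖(ρ : ℂ)‖ = 1 := Circle.norm_coe ρ
    have h1 := corr_green hn hv hF hρ
    have h2 : ∫ w in BV, ∫ x in PP v, F w (cr w x) *
        (F ((ρ : ℂ) * w) (cr ((ρ : ℂ) * w) x) * cr ((ρ : ℂ) * w) w) =
        - (ρ : ℂ).im * (∫ p : ℂ × ℂ, Gw v F p * Gw v F ((ρ : ℂ) * p.1, p.2)) := by
      rw [Gw_corr hF ρ, ← integral_const_mul]
      apply integral_congr_ae
      refine Eventually.of_forall (fun w => ?_)
      simp only
      rw [← integral_const_mul]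
      apply integral_congr_ae
      refine Eventually.of_forall (fun x => ?_)
      simp only
      rw [cr_rot_self]
      ring
    rw [← h2, h1, hα, hβ, Finset.mul_sum, Finset.mul_sum, ← Finset.sum_add_distrib]
    apply Finset.sum_congr rfl
    intro i _
    rw [side_corr hF (hne i) (hs i) hρ, side_const hF (hc i) hρ]
  have hα0 : α = 0 := by
    have := key 1
    simp at this
    linarith
  refine ⟨-β, ?_⟩
  intro ρ hρ
  have h3 := key ρ
  rw [hα0, mul_zero, zero_add] at h3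
  have h4 : (ρ : ℂ).im * ((∫ p : ℂ × ℂ, Gw v F p * Gw v F ((ρ : ℂ) * p.1, p.2)) + β) = 0 := by
    linarith
  have h5 := (mul_eq_zero.1 h4).resolve_left hρ
  linarith

/-- Homogeneity of a line function. -/
def HomF (F : ℂ → ℝ → ℝ) : Prop :=
  ∀ r : ℝ, 0 < r → ∀ (w : ℂ) (Q : ℝ), F ((r : ℂ) * w) (r * Q) = F w Q

theorem ae_im_ne : ∀ᵐ z : ℂ, z.im ≠ 0 := by
  filter_upwards [ae_not_mem_line 1] with z hz h
  apply hz
  rw [Submodule.mem_span_singleton]
  refine ⟨z.re, ?_⟩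
  rw [real_smul, mul_one]
  apply Complex.ext
  · simp
  · simp [h]

theorem ae_of_mul {w : ℂ} (hw : w ≠ 0) {p : ℂ → Prop} (h : ∀ᵐ z : ℂ, p (z * w)) :
    ∀ᵐ w' : ℂ, p w' := by
  let L : ℂ →ₗ[ℝ] ℂ :=
    { toFun := fun z => z * w
      map_add' := fun x y => add_mul _ _ _
      map_smul' := fun t x => by simp only [real_smul, RingHom.id_apply]; ring }
  have hL : ∀ z, L z = z * w := fun z => rfl
  have hLinj : Function.Injective L := by
    rw [injective_iff_map_eq_zero]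
    intro z hz
    rw [hL] at hz
    exact (mul_eq_zero.1 hz).resolve_right hw
  have hdet : LinearMap.det L ≠ 0 := by
    have hb : Function.Bijective L := ⟨hLinj, LinearMap.injective_iff_surjective.1 hLinj⟩
    have := (LinearEquiv.ofBijective L hb).isUnit_det'
    exact this.ne_zero
  rw [ae_iff] at h ⊢
  have h3 := Measure.addHaar_preimage_linearMap (volume : Measure ℂ) hdet {y | ¬ p y}
  have h4 : L ⁻¹' {y | ¬ p y} = {z | ¬ p (z * w)} := rfl
  rw [h4, h] at h3
  have h5 := mul_eq_zero.1 h3.symm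
  refine h5.resolve_left ?_
  rw [ENNReal.ofReal_eq_zero, not_le]
  exact abs_pos.2 (inv_ne_zero hdet)

theorem meas_F_mul {F : ℂ → ℝ → ℝ} (hF : LF F) :
    Measurable (fun q : ℂ × (ℂ × ℂ) => F (q.1 * q.2.1) (cr (q.1 * q.2.1) q.2.2)) := by
  have hc1 : Measurable (fun q : ℂ × (ℂ × ℂ) => cr (q.1 * q.2.1) q.2.2) := by
    apply Continuous.measurable; unfold cr; fun_prop
  have hc2 : Measurable (fun q : ℂ × (ℂ × ℂ) => q.1 * q.2.1) := by
    apply Continuous.measurable; fun_prop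
  exact hF.meas.comp (hc2.prodMk hc1)

/-- A rotation invariant homogeneous line function is constant. -/
theorem const_of_rot (hn : 3 ≤ n) (hv : ConvexIndependent ℝ v) {F : ℂ → ℝ → ℝ} (hF : LF F)
    (hhom : HomF F)
    (hrot : ∀ ρ : Circle, (ρ : ℂ).im ≠ 0 → ∀ᵐ p : ℂ × ℂ, Gw v F ((ρ : ℂ) * p.1, p.2) = Gw v F p) :
    ∃ c : ℝ, ∀ᵐ x : ℂ, x ∈ PP v → ∀ᵐ w : ℂ, F w (cr w x) = c := by
  -- all non-real multipliers
  have s1 : ∀ᵐ z : ℂ, ∀ᵐ p : ℂ × ℂ, p.1 ∈ BV → p.2 ∈ PP v → p.1 ≠ 0 →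
      F (z * p.1) (cr (z * p.1) p.2) = F p.1 (cr p.1 p.2) := by
    filter_upwards [ae_im_ne] with z hz
    have hz0 : z ≠ 0 := by
      rintro rfl
      exact hz rfl
    have hzn : 0 < ‖z‖ := norm_pos_iff.2 hz0
    set ρ : Circle := Circle.exp (arg z) with hρdef
    have hzρ : z = (‖z‖ : ℂ) * (ρ : ℂ) := by
      rw [hρdef, Circle.coe_exp]
      exact (Complex.norm_mul_exp_arg_mul_I z).symm
    have hρim : (ρ : ℂ).im ≠ 0 := by
      intro h0
      apply hz
      rw [hzρ, mul_im, ofReal_re, ofReal_im, h0]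
      ring
    filter_upwards [hrot ρ hρim] with p hp h1 h2 h3
    have hρ : ‖(ρ : ℂ)‖ = 1 := Circle.norm_coe ρ
    unfold Gw at hp
    rw [indicator_of_mem (show ((ρ : ℂ) * p.1, p.2) ∈ BV ×ˢ PP v from ⟨mem_BV_rot hρ h1, h2⟩),
      indicator_of_mem (show p ∈ BV ×ˢ PP v from ⟨h1, h2⟩)] at hp
    simp only [norm_mul, hρ, one_mul] at hp
    have h4 : ‖p.1‖ ≠ 0 := norm_ne_zero_iff.2 h3
    have h5 := mul_left_cancel₀ h4 hp
    rw [← h5]
    have e1 : z * p.1 = (‖z‖ : ℂ) * ((ρ : ℂ) * p.1) := by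
      conv_lhs => rw [hzρ]
      rw [mul_assoc]
    rw [e1, cr_smul_left]
    exact hhom ‖z‖ hzn _ _
  have hmeas : MeasurableSet {q : ℂ × (ℂ × ℂ) | q.2.1 ∈ BV → q.2.2 ∈ PP v → q.2.1 ≠ 0 →
      F (q.1 * q.2.1) (cr (q.1 * q.2.1) q.2.2) = F q.2.1 (cr q.2.1 q.2.2)} := by
    have m1 : MeasurableSet {q : ℂ × (ℂ × ℂ) | q.2.1 ∈ BV} :=
      measurableSet_ball.preimage measurable_snd.fst
    have m2 : MeasurableSet {q : ℂ × (ℂ × ℂ) | q.2.2 ∈ PP v} :=
      isOpen_PP.measurableSet.preimage measurable_snd.snd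
    have m3 : MeasurableSet {q : ℂ × (ℂ × ℂ) | q.2.1 ≠ 0} :=
      (measurableSet_singleton (0 : ℂ)).compl.preimage measurable_snd.fst
    have m4 : MeasurableSet {q : ℂ × (ℂ × ℂ) |
        F (q.1 * q.2.1) (cr (q.1 * q.2.1) q.2.2) = F q.2.1 (cr q.2.1 q.2.2)} :=
      measurableSet_eq_fun (meas_F_mul hF) ((meas_F_comp1 hF).comp measurable_snd)
    exact m1.imp (m2.imp (m3.imp m4))
  have s2 : ∀ᵐ p : ℂ × ℂ, ∀ᵐ z : ℂ, p.1 ∈ BV → p.2 ∈ PP v → p.1 ≠ 0 →
      F (z * p.1) (cr (z * p.1) p.2) = F p.1 (cr p.1 p.2) :=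
    (Measure.ae_ae_comm hmeas).1 s1
  have s3 : ∀ᵐ p : ℂ × ℂ, p.1 ∈ BV → p.2 ∈ PP v → p.1 ≠ 0 →
      ∀ᵐ w : ℂ, F w (cr w p.2) = F p.1 (cr p.1 p.2) := by
    filter_upwards [s2] with p hp h1 h2 h3
    apply ae_of_mul h3
    filter_upwards [hp] with z hz
    exact hz h1 h2 h3
  have s4 : ∀ᵐ x : ℂ, ∀ᵐ w : ℂ, w ∈ BV → x ∈ PP v → w ≠ 0 →
      ∀ᵐ w' : ℂ, F w' (cr w' x) = F w (cr w x) := by
    have h0 : MeasurePreserving (Prod.swap : ℂ × ℂ → ℂ × ℂ)
      ((volume : Measure ℂ).prod volume) ((volume : Measure ℂ).prod volume) :=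
      Measure.measurePreserving_swap
    have h1 := h0.quasiMeasurePreserving.ae s3
    exact Measure.ae_ae_of_ae_prod h1
  -- the mean value function
  set φ : ℂ → ℝ := fun x => (∫ w in BV, F w (cr w x)) / (volume BV).toReal with hφ
  have hφm : Measurable φ := by
    have h2 : StronglyMeasurable (Function.uncurry (fun (x : ℂ) (w : ℂ) => F w (cr w x))) :=
      ((meas_F_comp1 hF).comp measurable_swap).stronglyMeasurable
    exact h2.integral_prod_right.measurable.div_const _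
  have hVpos : 0 < (volume BV).toReal := by rw [vol_BV]; exact Real.pi_pos
  have s5 : ∀ᵐ x : ℂ, x ∈ PP v → ∀ᵐ w : ℂ, F w (cr w x) = φ x := by
    filter_upwards [s4] with x hx hxP
    obtain ⟨w0, hw1, hw2, hw3⟩ : ∃ w : ℂ, w ∈ BV ∧ w ≠ 0 ∧
        (w ∈ BV → x ∈ PP v → w ≠ 0 → ∀ᵐ w' : ℂ, F w' (cr w' x) = F w (cr w x)) := by
      by_contra hcon
      have h1 : volume (BV \ {(0 : ℂ)}) = 0 := by
        apply measure_mono_null _ hx
        intro w hw hcon2
        exact hcon ⟨w, hw.1, hw.2, hcon2⟩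
      rw [measure_sdiff_null (measure_singleton 0)] at h1
      rw [h1] at hVpos
      simp at hVpos
    have h5 := hw3 hw1 hxP hw2
    have h6 : φ x = F w0 (cr w0 x) := by
      rw [hφ]
      simp only
      rw [integral_congr_ae (ae_restrict_of_ae h5), setIntegral_const, smul_eq_mul, Measure.real]
      field_simp
    rw [h6]
    exact h5
  -- as a statement on the product
  have hmeas2 : MeasurableSet {p : ℂ × ℂ | p.1 ∈ PP v → F p.2 (cr p.2 p.1) = φ p.1} := by
    have m1 : MeasurableSet {p : ℂ × ℂ | p.1 ∈ PP v} :=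
      isOpen_PP.measurableSet.preimage measurable_fst
    have m2 : MeasurableSet {p : ℂ × ℂ | F p.2 (cr p.2 p.1) = φ p.1} :=
      measurableSet_eq_fun ((meas_F_comp1 hF).comp measurable_swap) (hφm.comp measurable_fst)
    exact m1.imp m2
  have s6 : ∀ᵐ p ∂((volume : Measure ℂ).prod (volume : Measure ℂ)),
      p.1 ∈ PP v → F p.2 (cr p.2 p.1) = φ p.1 := by
    rw [Measure.ae_prod_iff_ae_ae hmeas2]
    filter_upwards [s5] with x hx
    by_cases hxP : x ∈ PP v
    · filter_upwards [hx hxP] with w hw _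
      exact hw
    · exact Eventually.of_forall (fun w h => absurd h hxP)
  have q1 := (measurePreserving_prod_sub (volume : Measure ℂ)
    (volume : Measure ℂ)).quasiMeasurePreserving.ae s6
  have hsw : MeasurePreserving (Prod.swap : ℂ × ℂ → ℂ × ℂ)
      ((volume : Measure ℂ).prod volume) ((volume : Measure ℂ).prod volume) :=
      Measure.measurePreserving_swap
  -- the map (x, y) ↦ (y, y - x)
  have hmp2 : MeasurePreserving (fun z : ℂ × ℂ => (z.2, z.2 - z.1))
      ((volume : Measure ℂ).prod volume) ((volume : Measure ℂ).prod volume) := by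
    have h1 := measurePreserving_prod_sub_swap (volume : Measure ℂ) (volume : Measure ℂ)
    have h2 : MeasurePreserving (fun z : ℂ × ℂ => (z.1, -z.2))
        ((volume : Measure ℂ).prod volume) ((volume : Measure ℂ).prod volume) :=
      (MeasurePreserving.id volume).prod (Measure.measurePreserving_neg (volume : Measure ℂ))
    have h3 := h2.comp h1
    convert h3 using 1
    funext z
    exact Prod.ext rfl (neg_sub _ _).symm
  have q2 := hmp2.quasiMeasurePreserving.ae s6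
  have s7 : ∀ᵐ p ∂((volume : Measure ℂ).prod (volume : Measure ℂ)),
      p.1 ∈ PP v → p.2 ∈ PP v → φ p.1 = φ p.2 := by
    filter_upwards [q1, q2] with p h1 h2 h3 h4
    have h5 : F (p.2 - p.1) (cr (p.2 - p.1) p.1) = φ p.1 := h1 h3
    have h6 : F (p.2 - p.1) (cr (p.2 - p.1) p.2) = φ p.2 := h2 h4
    have h7 : cr (p.2 - p.1) p.1 = cr (p.2 - p.1) p.2 := by
      have := cr_self (p.2 - p.1)
      rw [cr_sub_right] at this
      linarith
    rw [h7] at h5
    rw [← h5, ← h6]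
  have s8 := Measure.ae_ae_of_ae_prod s7
  obtain ⟨x0, hx0, hx0'⟩ : ∃ x ∈ PP v, ∀ᵐ y : ℂ, x ∈ PP v → y ∈ PP v → φ x = φ y := by
    by_contra hcon
    have hpos := isOpen_PP (v := v) |>.measure_pos volume (PP_nonempty hn hv)
    apply hpos.ne'
    apply measure_mono_null _ s8
    intro x hx hx'
    exact hcon ⟨x, hx, hx'⟩
  refine ⟨φ x0, ?_⟩
  filter_upwards [s5, hx0'] with x h1 h2 hxP
  filter_upwards [h1 hxP] with w hw
  rw [hw, h2 hx0 hxP]

end Pool.Agent.Lib.BilM
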